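import Pool.Agent.Helper63.Hyp6.Data
import Pool.Agent.Helper63.Hyp6.Defs
import Pool.Agent.Helper87.Hyp6Fund
import Pool.Agent.Helper96.Hyp.Walls

/-!
Generic part: a torsion-free finite index subgroup of an integral Lorentz group containing the
wall reflections is the group of a hyperbolic 6-manifold, and it acts freely and properly
discontinuously on hyperbolic 6-space.
-/

namespace Pool.Agent.Helper96.Hyp6P

open Pool.Agent.Helper63.Hyp6
open Pool.Agent.Helper87.Hyp6V (toR lorZ JZ JJ lor_toR lorZ_eq gram mR mR_mul mR_one mR_mulVec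
  pos_of_lor lor_le lor_eq lor_comm refl refl_eq volume_cone_image exists_fundamental_set
  lor_sub_left lor_smul_left lor_add_left)
open scoped Matrix

lemma exists_V (F : Fin 27) : ∃ s, Pool.Agent.Helper96.Hyp.line F = V s := by
  revert F
  decide +kernel

/-- the walls are the 27 vectors -/
lemma wall_eq {v : Fin 7 → ℤ} (h : Pool.Agent.Helper87.Hyp6V.IsWall v) : ∃ s, v = V s := by
  have h1 : Pool.Agent.Helper96.Hyp.IsWall Pool.Agent.Helper96.Hyp.c0 v := by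
    obtain ⟨h1, h2⟩ := h
    simp only [Fin.sum_univ_six] at h1 h2
    refine ⟨?_, ?_⟩
    · rw [← h1]; rfl
    · rw [← h2]
      simp only [Pool.Agent.Helper96.Hyp.B, Pool.Agent.Helper96.Hyp.S, Pool.Agent.Helper96.Hyp.c0]
      simp
  obtain ⟨F, rfl⟩ := Pool.Agent.Helper96.Hyp.wall_c0 h1
  exact exists_V F

/-- the real matrix group of a subgroup -/
noncomputable def imG {𝒲 : Type} [Group 𝒲] (ρ : 𝒲 →* GL (Fin 7) ℤ) (Γ : Subgroup 𝒲) :
    Subgroup (GL (Fin 7) ℝ) :=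
  (Γ.map ρ).map (Matrix.GeneralLinearGroup.map (Int.castRingHom ℝ))

/-- the real matrix of a group element -/
noncomputable def rm {𝒲 : Type} [Group 𝒲] (ρ : 𝒲 →* GL (Fin 7) ℤ) (w : 𝒲) :
    Matrix (Fin 7) (Fin 7) ℝ := mR (ρ w).1

section

variable {𝒲 : Type} [Group 𝒲] (ρ : 𝒲 →* GL (Fin 7) ℤ)

lemma rm_one : rm ρ 1 = 1 := by
  unfold rm
  rw [map_one]
  exact mR_one

lemma rm_mul (a b : 𝒲) : rm ρ (a * b) = rm ρ a * rm ρ b := by
  unfold rm
  rw [map_mul]
  exact mR_mul _ _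

lemma rm_inv_mul (a : 𝒲) : rm ρ a⁻¹ * rm ρ a = 1 := by
  rw [← rm_mul, inv_mul_cancel, rm_one]

lemma rm_coe (w : 𝒲) : ((Matrix.GeneralLinearGroup.map (Int.castRingHom ℝ) (ρ w) :
    GL (Fin 7) ℝ) : Matrix (Fin 7) (Fin 7) ℝ) = rm ρ w := rfl

lemma mR_injective : Function.Injective mR := by
  intro A B h
  ext i j
  have := congrFun (congrFun h i) j
  simpa [mR] using this

lemma rm_injective (hinj : Function.Injective ρ) : Function.Injective (rm ρ) := by
  intro a b h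
  exact hinj (Units.ext (mR_injective h))

lemma mem_imG {Γ : Subgroup 𝒲} {A : GL (Fin 7) ℝ} :
    A ∈ imG ρ Γ ↔ ∃ g ∈ Γ, (A : Matrix (Fin 7) (Fin 7) ℝ) = rm ρ g := by
  unfold imG
  constructor
  · rintro ⟨B, ⟨g, hg, rfl⟩, rfl⟩
    exact ⟨g, hg, rfl⟩
  · rintro ⟨g, hg, h⟩
    refine ⟨ρ g, ⟨g, hg, rfl⟩, ?_⟩
    apply Units.ext
    rw [h]
    rfl

variable (hbil : ∀ w x y, bil ((ρ w).1.mulVec x) ((ρ w).1.mulVec y) = bil x y)

include hbil

lemma lor_rm (w : 𝒲) (x y : Fin 7 → ℝ) : lor (rm ρ w *ᵥ x) (rm ρ w *ᵥ y) = lor x y := by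
  have h1 : (rm ρ w)ᵀ * JJ * rm ρ w = JJ := by
    have h2 := congrArg mR (gram (A := (ρ w).1) (hbil w))
    rw [mR_mul, mR_mul] at h2
    have h3 : mR JZ = JJ := by
      unfold mR JZ JJ
      ext i j
      simp only [Matrix.map_apply, Matrix.diagonal_apply]
      split_ifs <;> simp
    have h4 : mR ((ρ w).1)ᵀ = (mR (ρ w).1)ᵀ := rfl
    rwa [h3, h4] at h2
  rw [lor_eq, lor_eq, Matrix.mulVec_mulVec, ← Matrix.vecMul_transpose, ← Matrix.dotProduct_mulVec,
    Matrix.mulVec_mulVec, ← Matrix.mul_assoc, h1]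

variable (hfut : ∀ w, 0 < (ρ w).1 0 0)

omit hbil in
lemma lor_single : lor (Pi.single 0 1) (Pi.single 0 1) = -1 := by
  rw [lor_eq, Pool.Agent.Helper87.Hyp6V.lor_eq _ _ |>.symm]
  unfold lor
  simp [Fin.succ_ne_zero]

omit hbil in
lemma lor_single_right (x : Fin 7 → ℝ) : lor x (Pi.single 0 1) = - x 0 := by
  unfold lor
  simp [Fin.succ_ne_zero]

omit hbil in
lemma rm_single (w : 𝒲) (i : Fin 7) :
    (rm ρ w *ᵥ (Pi.single 0 1 : Fin 7 → ℝ)) i = ((ρ w).1 i 0 : ℝ) := by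
  rw [Matrix.mulVec_single_one]
  rfl

include hfut

omit hbil in
lemma rm_single_pos (w : 𝒲) : 0 < (rm ρ w *ᵥ (Pi.single 0 1 : Fin 7 → ℝ)) 0 := by
  rw [rm_single]
  exact_mod_cast hfut w

lemma rm_pos (w : 𝒲) {x : Fin 7 → ℝ} (hx : lor x x < 0) (hx0 : 0 < x 0) :
    0 < (rm ρ w *ᵥ x) 0 := by
  refine pos_of_lor (u := rm ρ w *ᵥ (Pi.single 0 1 : Fin 7 → ℝ)) ?_ (rm_single_pos ρ hfut w)
    (by rw [lor_rm ρ hbil]; exact hx) ?_
  · rw [lor_rm ρ hbil, lor_single]; norm_num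
  · rw [lor_rm ρ hbil, lor_comm, lor_single_right]; linarith

lemma isIsometry_rm (w : 𝒲) : IsIsometry (rm ρ w) := by
  refine ⟨lor_rm ρ hbil w, ?_⟩
  have := rm_single_pos ρ hfut w
  rw [rm_single] at this
  exact this

/-- the action on hyperbolic space -/
noncomputable def actH (w : 𝒲) (x : H6) : H6 :=
  ⟨rm ρ w *ᵥ x.1, by rw [lor_rm ρ hbil]; exact x.2.1, rm_pos ρ hbil hfut w (by
    rw [x.2.1]; norm_num) x.2.2⟩

lemma actH_val (w : 𝒲) (x : H6) : (actH ρ hbil hfut w x).1 = rm ρ w *ᵥ x.1 := rfl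

lemma actH_one (x : H6) : actH ρ hbil hfut 1 x = x := by
  apply Subtype.ext
  rw [actH_val, rm_one, Matrix.one_mulVec]

lemma actH_mul (a b : 𝒲) (x : H6) :
    actH ρ hbil hfut (a * b) x = actH ρ hbil hfut a (actH ρ hbil hfut b x) := by
  apply Subtype.ext
  rw [actH_val, actH_val, actH_val, rm_mul, Matrix.mulVec_mulVec]

lemma continuous_actH (w : 𝒲) : Continuous (actH ρ hbil hfut w) := by
  apply Continuous.subtype_mk
  exact Continuous.matrix_mulVec continuous_const continuous_subtype_val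

/-! ### proper discontinuity -/

/-- entries of an integral Lorentz matrix are bounded by its time entry -/
lemma entry_le (w : 𝒲) (i j : Fin 7) : |(ρ w).1 i j| ≤ 1 + (ρ w).1 0 0 := by
  have h0 : ∀ w : 𝒲, ∀ j, -((ρ w).1 0 j * (ρ w).1 0 j) +
      ∑ k : Fin 6, (ρ w).1 k.succ j * (ρ w).1 k.succ j = if j = 0 then -1 else 1 := by
    intro w j
    have h := hbil w (Pi.single j 1) (Pi.single j 1)
    rw [Matrix.mulVec_single_one] at h
    unfold bil at h
    simp only [Matrix.col_apply] at h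
    rw [h]
    refine Fin.cases ?_ (fun k => ?_) j
    · simp [Fin.succ_ne_zero]
    · rw [if_neg (Fin.succ_ne_zero k)]
      rw [Finset.sum_eq_single k]
      · simp
      · intro b _ hb
        simp [hb]
      · intro h; exact absurd (Finset.mem_univ _) h
  have hcol0 : ∀ w : 𝒲, ∀ i, |(ρ w).1 i 0| ≤ (ρ w).1 0 0 := by
    intro w i
    refine Fin.cases ?_ (fun k => ?_) i
    · rw [abs_of_pos (hfut w)]
    · have h := h0 w 0
      rw [if_pos rfl] at h
      have h1 : (ρ w).1 k.succ 0 * (ρ w).1 k.succ 0 ≤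
          ∑ k : Fin 6, (ρ w).1 k.succ 0 * (ρ w).1 k.succ 0 :=
        Finset.single_le_sum (f := fun k : Fin 6 => (ρ w).1 k.succ 0 * (ρ w).1 k.succ 0)
          (fun i _ => mul_self_nonneg _) (Finset.mem_univ k)
      have h2 : |(ρ w).1 k.succ 0| ≤ |(ρ w).1 0 0| := by
        rw [← sq_le_sq]; nlinarith
      rwa [abs_of_pos (hfut w)] at h2
  -- the time row
  have hrow0 : |(ρ w).1 0 j| ≤ (ρ w).1 0 0 := by
    -- from the inverse
    have hinv : ∀ j, (ρ w⁻¹).1 j 0 = (if j = 0 then 1 else -1) * (ρ w).1 0 j := by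
      intro j
      have h := hbil w ((ρ w⁻¹).1.mulVec (Pi.single 0 1)) (Pi.single j 1)
      rw [Matrix.mulVec_mulVec, ← Units.val_mul, ← map_mul, mul_inv_cancel, map_one,
        Units.val_one, Matrix.one_mulVec, Matrix.mulVec_single_one, Matrix.mulVec_single_one] at h
      unfold bil at h
      simp only [Matrix.col_apply] at h
      have e1 : ∀ k : Fin 6, (Pi.single (0 : Fin 7) (1 : ℤ) : Fin 7 → ℤ) k.succ = 0 := by
        intro k; simp [Fin.succ_ne_zero]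
      simp only [e1, zero_mul, Finset.sum_const_zero, add_zero, Pi.single_eq_same, one_mul] at h
      revert h
      refine Fin.cases ?_ (fun k => ?_) j
      · intro h
        simp only [e1, mul_zero, Finset.sum_const_zero, add_zero, Pi.single_eq_same, mul_one] at h
        rw [if_pos rfl, one_mul]
        linarith
      · intro h
        rw [if_neg (Fin.succ_ne_zero k)]
        have e2 : (Pi.single k.succ (1 : ℤ) : Fin 7 → ℤ) 0 = 0 := by simp [Fin.succ_ne_zero]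
        rw [Finset.sum_eq_single k] at h
        · rw [e2, Pi.single_eq_same, mul_zero, mul_one, neg_zero, zero_add] at h
          linarith
        · intro b _ hb
          have e3 : (Pi.single k.succ (1 : ℤ) : Fin 7 → ℤ) b.succ = 0 := by simp [hb]
          rw [e3, mul_zero]
        · intro h; exact absurd (Finset.mem_univ _) h
    have h1 := hcol0 w⁻¹ j
    have h2 := hinv 0
    rw [if_pos rfl, one_mul] at h2
    rw [h2, hinv j] at h1
    split_ifs at h1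
    · rwa [one_mul] at h1
    · rwa [neg_one_mul, abs_neg] at h1
  have hp := hfut w
  refine Fin.cases (by linarith) (fun k => ?_) i
  have h := h0 w j
  have h1 : (ρ w).1 k.succ j * (ρ w).1 k.succ j ≤
      ∑ k : Fin 6, (ρ w).1 k.succ j * (ρ w).1 k.succ j :=
    Finset.single_le_sum (f := fun k : Fin 6 => (ρ w).1 k.succ j * (ρ w).1 k.succ j)
      (fun i _ => mul_self_nonneg _) (Finset.mem_univ k)
  have h2 : (if j = 0 then (-1 : ℤ) else 1) ≤ 1 := by split_ifs <;> norm_num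
  have h3 : (ρ w).1 0 j * (ρ w).1 0 j ≤ (ρ w).1 0 0 * (ρ w).1 0 0 := by
    have := sq_le_sq' (abs_le.1 hrow0).1 (abs_le.1 hrow0).2
    nlinarith
  have h4 : |(ρ w).1 k.succ j| ≤ |1 + (ρ w).1 0 0| := by
    rw [← sq_le_sq]; nlinarith
  rwa [abs_of_pos (by linarith : (0:ℤ) < 1 + (ρ w).1 0 0)] at h4

lemma finite_bounded (hinj : Function.Injective ρ) (c : ℝ) :
    {w : 𝒲 | ((ρ w).1 0 0 : ℝ) ≤ c}.Finite := by
  obtain ⟨N, hN⟩ := exists_nat_ge c
  have h : (Set.Icc (fun _ _ => -(1 + (N : ℤ)) : Fin 7 → Fin 7 → ℤ)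
      (fun _ _ => 1 + (N : ℤ))).Finite := Set.finite_Icc _ _
  have hinj' : Function.Injective (fun w : 𝒲 => ((ρ w).1 : Fin 7 → Fin 7 → ℤ)) := by
    intro a b hab
    exact hinj (Units.ext hab)
  refine (h.preimage (hinj'.injOn)).subset ?_
  intro w hw
  have h1 : (ρ w).1 0 0 ≤ (N : ℤ) := by
    have : ((ρ w).1 0 0 : ℝ) ≤ (N : ℝ) := le_trans hw hN
    exact_mod_cast this
  constructor
  · intro i j
    have := (abs_le.1 (entry_le ρ hbil hfut w i j)).1
    show -(1 + (N : ℤ)) ≤ (ρ w).1 i j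
    linarith
  · intro i j
    have := (abs_le.1 (entry_le ρ hbil hfut w i j)).2
    show (ρ w).1 i j ≤ 1 + (N : ℤ)
    linarith

lemma time_le (w : 𝒲) {c : ℝ} (x : H6) (hx : x.1 0 ≤ c) (hy : (actH ρ hbil hfut w x).1 0 ≤ c) :
    ((ρ w).1 0 0 : ℝ) ≤ 2 * c * c := by
  set z := actH ρ hbil hfut w x with hz
  have hz0 : 0 < z.1 0 := z.2.2
  have hx0 : 0 < x.1 0 := x.2.2
  have h1 : lor (rm ρ w *ᵥ (Pi.single 0 1 : Fin 7 → ℝ)) (rm ρ w *ᵥ (Pi.single 0 1)) < 0 := by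
    rw [lor_rm ρ hbil, lor_single]; norm_num
  have h2 := lor_le (x := z.1) h1 (rm_single_pos ρ hfut w)
  have h3 : lor z.1 (rm ρ w *ᵥ (Pi.single 0 1 : Fin 7 → ℝ)) = - x.1 0 := by
    rw [hz, actH_val, lor_rm ρ hbil, lor_single_right]
  rw [h3, rm_single, neg_neg] at h2
  set s := Real.sqrt (∑ i : Fin 6, z.1 i.succ * z.1 i.succ) with hs
  have hs0 : 0 ≤ s := Real.sqrt_nonneg _
  have hs2 : s * s = z.1 0 * z.1 0 - 1 := by
    rw [hs, Real.mul_self_sqrt (Finset.sum_nonneg fun i _ => mul_self_nonneg _)]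
    have := z.2.1
    unfold lor at this
    linarith
  have hA : (0 : ℝ) < ((ρ w).1 0 0 : ℝ) := by exact_mod_cast hfut w
  have hlt : s < z.1 0 := by nlinarith
  have h4 : 1 ≤ (z.1 0 - s) * (2 * c) := by
    have : (z.1 0 - s) * (z.1 0 + s) = 1 := by nlinarith
    have h5 : z.1 0 + s ≤ 2 * c := by linarith
    have h6 : 0 < z.1 0 - s := by linarith
    nlinarith
  have hc : 0 < c := lt_of_lt_of_le hx0 hx
  calc ((ρ w).1 0 0 : ℝ) ≤ ((ρ w).1 0 0 : ℝ) * ((z.1 0 - s) * (2 * c)) := by nlinarith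
    _ = ((z.1 0 - s) * ((ρ w).1 0 0 : ℝ)) * (2 * c) := by ring
    _ ≤ x.1 0 * (2 * c) := by nlinarith
    _ ≤ c * (2 * c) := by nlinarith
    _ = 2 * c * c := by ring

/-- finite order of the elements of stabilizers -/
lemma finOrder_of_fix (hinj : Function.Injective ρ) (w : 𝒲) (x : H6)
    (h : actH ρ hbil hfut w x = x) : IsOfFinOrder w := by
  rw [← finite_powers]
  refine (finite_bounded ρ hbil hfut hinj (2 * x.1 0 * x.1 0)).subset ?_
  rintro _ ⟨n, rfl⟩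
  have hn : ∀ n : ℕ, actH ρ hbil hfut (w ^ n) x = x := by
    intro n
    induction n with
    | zero => rw [pow_zero, actH_one]
    | succ n ih => rw [pow_succ, actH_mul, h, ih]
  exact time_le ρ hbil hfut (w ^ n) x le_rfl (by rw [hn n])

end

/-- action of `Γ` on hyperbolic space, properly discontinuous and free, with the quotient space -/
theorem P_action {𝒲 : Type} [Group 𝒲] (ρ : 𝒲 →* GL (Fin 7) ℤ)
    (hinj : Function.Injective ρ)
    (hbil : ∀ w x y, bil ((ρ w).1.mulVec x) ((ρ w).1.mulVec y) = bil x y)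
    (hfut : ∀ w, 0 < (ρ w).1 0 0)
    (Γ : Subgroup 𝒲)
    (htf : ∀ g ∈ Γ, ∀ n : ℕ, 0 < n → g ^ n = 1 → g = 1) :
    ∃ (_ : MulAction Γ H6) (_ : ContinuousConstSMul Γ H6),
      (∀ x : H6, ∃ U ∈ nhds x, ∀ g : Γ, ((g • ·) '' U ∩ U).Nonempty → g = 1) ∧
      Topology.IsQuotientMap (Quotient.mk (orbitSetoid (imG ρ Γ)) : H6 → Quot6 (imG ρ Γ)) ∧
      (∀ x y : H6, (Quotient.mk (orbitSetoid (imG ρ Γ)) x : Quot6 (imG ρ Γ)) =
        Quotient.mk (orbitSetoid (imG ρ Γ)) y ↔ ∃ g : Γ, g • x = y) := by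
  let inst : MulAction Γ H6 :=
    { smul := fun g x => actH ρ hbil hfut g.1 x
      one_smul := fun x => actH_one ρ hbil hfut x
      mul_smul := fun a b x => actH_mul ρ hbil hfut a.1 b.1 x }
  have hsm : ∀ (g : Γ) (x : H6), g • x = actH ρ hbil hfut g.1 x := fun _ _ => rfl
  refine ⟨inst, ⟨fun g => continuous_actH ρ hbil hfut g.1⟩, ?_, ?_, ?_⟩
  · intro x
    set c := x.1 0 + 1 with hc
    have hfin : {g : Γ | ((ρ g.1).1 0 0 : ℝ) ≤ 2 * c * c}.Finite :=
      (finite_bounded ρ hbil hfut hinj (2 * c * c)).preimage Subtype.val_injective.injOn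
    have hsep : ∀ g : Γ, ∃ N ∈ nhds x, g ≠ 1 → ∀ y ∈ N, g • y ∉ N := by
      intro g
      by_cases hg : g = 1
      · exact ⟨Set.univ, Filter.univ_mem, fun h => absurd hg h⟩
      · have hne : g • x ≠ x := by
          intro h
          have h1 := finOrder_of_fix ρ hbil hfut hinj g.1 x h
          obtain ⟨n, hn, h2⟩ := isOfFinOrder_iff_pow_eq_one.1 h1
          exact hg (Subtype.ext (htf g.1 g.2 n hn h2))
        have ht2 : T2Space H6 := inferInstanceAs (T2Space {x : Fin 7 → ℝ // lor x x = -1 ∧ 0 < x 0})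
        obtain ⟨A, B, hA, hB, hxA, hxB, hAB⟩ := t2_separation hne
        refine ⟨B ∩ (fun y => g • y) ⁻¹' A, Filter.inter_mem (hB.mem_nhds hxB)
          ((continuous_actH ρ hbil hfut g.1).continuousAt.preimage_mem_nhds
            (hA.mem_nhds hxA)), fun _ y hy hy' => ?_⟩
        exact Set.disjoint_left.1 hAB hy.2 hy'.1
    choose N hN hN' using hsep
    have hcont : Continuous (fun y : H6 => y.1 0) :=
      (continuous_apply 0).comp continuous_subtype_val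
    refine ⟨{y : H6 | y.1 0 < c} ∩ ⋂ g ∈ {g : Γ | ((ρ g.1).1 0 0 : ℝ) ≤ 2 * c * c}, N g,
      Filter.inter_mem ((isOpen_lt hcont continuous_const).mem_nhds (by
        show x.1 0 < c
        rw [hc]; linarith)) ((Filter.biInter_mem hfin).2 fun g _ => hN g), ?_⟩
    rintro g ⟨z, ⟨y, hy, rfl⟩, hz⟩
    by_contra hg
    have hmem : g ∈ {g : Γ | ((ρ g.1).1 0 0 : ℝ) ≤ 2 * c * c} :=
      time_le ρ hbil hfut g.1 y (le_of_lt hy.1) (le_of_lt hz.1)
    exact hN' g hg y (Set.mem_iInter₂.1 hy.2 g hmem) (Set.mem_iInter₂.1 hz.2 g hmem)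
  · exact isQuotientMap_quot_mk
  · intro x y
    constructor
    · intro h
      obtain ⟨A, hA, h1⟩ := Quotient.exact h
      obtain ⟨g, hg, h2⟩ := (mem_imG ρ).1 hA
      refine ⟨⟨g, hg⟩, Subtype.ext ?_⟩
      rw [hsm, actH_val, ← h2]
      exact h1
    · rintro ⟨g, rfl⟩
      apply Quotient.sound
      refine ⟨Matrix.GeneralLinearGroup.map (Int.castRingHom ℝ) (ρ g.1),
        (mem_imG ρ).2 ⟨g.1, g.2, rfl⟩, ?_⟩
      rw [hsm, actH_val]
      rfl

/-- reflection as a linear map -/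
noncomputable def reflL (v : Fin 7 → ℤ) : (Fin 7 → ℝ) →ₗ[ℝ] (Fin 7 → ℝ) where
  toFun := refl v
  map_add' x y := by
    rw [refl_eq, refl_eq, refl_eq, lor_add_left, mul_add, add_smul]
    abel
  map_smul' a x := by
    rw [refl_eq, refl_eq, lor_smul_left, RingHom.id_apply, smul_sub, smul_smul]
    congr 2
    ring

lemma toR_single (j : Fin 7) : toR (Pi.single j 1) = (Pi.single j 1 : Fin 7 → ℝ) := by
  funext i
  unfold toR
  by_cases h : i = j
  · subst h; simp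
  · simp [h]

lemma refl_toR (v x : Fin 7 → ℤ) : refl v (toR x) = toR (rfl1 v x) := by
  funext i
  rw [refl_eq, lor_toR, rfl1_apply]
  have : lorZ x v = bil x v := rfl
  rw [this]
  simp [toR]

lemma rm_refl {𝒲 : Type} [Group 𝒲] (ρ : 𝒲 →* GL (Fin 7) ℤ) (w : 𝒲) (s : Fin 27)
    (h : ∀ x : Fin 7 → ℤ, (ρ w).1.mulVec x = rfl1 (V s) x) (x : Fin 7 → ℝ) :
    rm ρ w *ᵥ x = refl (V s) x := by
  have h1 : (rm ρ w).mulVecLin = reflL (V s) := by
    apply LinearMap.pi_ext'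
    intro j
    apply LinearMap.ext_ring
    change rm ρ w *ᵥ (Pi.single j (1 : ℝ)) = refl (V s) (Pi.single j (1 : ℝ))
    rw [← toR_single, refl_toR, ← h]
    exact mR_mulVec _ _
  exact LinearMap.congr_fun h1 x

lemma exists_word {𝒲 : Type} [Group 𝒲] (ρ : 𝒲 →* GL (Fin 7) ℤ)
    (hwall : ∀ s, ∃ w : 𝒲, ∀ x : Fin 7 → ℤ, (ρ w).1.mulVec x = rfl1 (V s) x)
    (l : List (Fin 7 → ℤ)) (hl : ∀ v ∈ l, Pool.Agent.Helper87.Hyp6V.IsWall v) :
    ∃ w : 𝒲, ∀ x : Fin 7 → ℝ, rm ρ w *ᵥ x = l.foldr refl x := by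
  induction l with
  | nil => exact ⟨1, fun x => by rw [rm_one, Matrix.one_mulVec, List.foldr_nil]⟩
  | cons v l ih =>
    obtain ⟨w, hw⟩ := ih fun u hu => hl u (List.mem_cons_of_mem _ hu)
    obtain ⟨s, rfl⟩ := wall_eq (hl v List.mem_cons_self)
    obtain ⟨r, hr⟩ := hwall s
    refine ⟨r * w, fun x => ?_⟩
    rw [rm_mul, ← Matrix.mulVec_mulVec, hw, rm_refl ρ r s hr, List.foldr_cons]

/-- integral matrix groups are discrete -/
lemma discrete_imG {𝒲 : Type} [Group 𝒲] (ρ : 𝒲 →* GL (Fin 7) ℤ) (Γ : Subgroup 𝒲) :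
    DiscreteTopology (imG ρ Γ) := by
  apply discreteTopology_of_isOpen_singleton_one
  have hcont : ∀ i j, Continuous (fun A : imG ρ Γ =>
      ((A : GL (Fin 7) ℝ) : Matrix (Fin 7) (Fin 7) ℝ) i j) := by
    intro i j
    exact (Units.continuous_val.comp continuous_subtype_val).matrix_elem i j
  have h1 : ({1} : Set (imG ρ Γ)) = ⋂ i : Fin 7, ⋂ j : Fin 7,
      {A : imG ρ Γ | |((A : GL (Fin 7) ℝ) : Matrix (Fin 7) (Fin 7) ℝ) i j -
        (1 : Matrix (Fin 7) (Fin 7) ℝ) i j| < 1} := by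
    ext A
    rw [Set.mem_singleton_iff, Set.mem_iInter]
    constructor
    · rintro rfl i
      rw [Set.mem_iInter]
      intro j
      show |((1 : Matrix (Fin 7) (Fin 7) ℝ)) i j - (1 : Matrix (Fin 7) (Fin 7) ℝ) i j| < 1
      simp
    · intro h
      apply Subtype.ext
      apply Units.ext
      obtain ⟨g, hg, hA⟩ := (mem_imG ρ).1 A.2
      ext i j
      have h2 := Set.mem_iInter.1 (h i) j
      have h3 : |((A : GL (Fin 7) ℝ) : Matrix (Fin 7) (Fin 7) ℝ) i j -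
        (1 : Matrix (Fin 7) (Fin 7) ℝ) i j| < 1 := h2
      rw [hA] at h3 ⊢
      have h4 : (1 : Matrix (Fin 7) (Fin 7) ℝ) i j =
          (((1 : Matrix (Fin 7) (Fin 7) ℤ) i j : ℤ) : ℝ) := by
        rw [← mR_one]
        rfl
      have h5 : rm ρ g i j = (((ρ g).1 i j : ℤ) : ℝ) := rfl
      change rm ρ g i j = (1 : Matrix (Fin 7) (Fin 7) ℝ) i j
      rw [h4, h5] at h3 ⊢
      have h6 : |(ρ g).1 i j - (1 : Matrix (Fin 7) (Fin 7) ℤ) i j| < 1 := by
        exact_mod_cast h3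
      have h7 := Int.abs_lt_one_iff.1 h6
      exact_mod_cast sub_eq_zero.1 h7
  rw [h1]
  exact isOpen_iInter_of_finite fun i => isOpen_iInter_of_finite fun j =>
    isOpen_lt ((hcont i j).sub continuous_const).abs continuous_const

/-- the covolume is finite -/
lemma finiteCovolume_imG {𝒲 : Type} [Group 𝒲] (ρ : 𝒲 →* GL (Fin 7) ℤ)
    (hbil : ∀ w x y, bil ((ρ w).1.mulVec x) ((ρ w).1.mulVec y) = bil x y)
    (hfut : ∀ w, 0 < (ρ w).1 0 0)
    (hwall : ∀ s, ∃ w : 𝒲, ∀ x : Fin 7 → ℤ, (ρ w).1.mulVec x = rfl1 (V s) x)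
    (Γ : Subgroup 𝒲) [Γ.FiniteIndex] : FiniteCovolume (imG ρ Γ) := by
  obtain ⟨D, hD, hcov⟩ := exists_fundamental_set
  let E : (𝒲 ⧸ Γ) → Set H6 := fun c =>
    {y | ∃ x ∈ D, (rm ρ (Quotient.out c)⁻¹).mulVec x.1 = y.1}
  have : Fintype (𝒲 ⧸ Γ) := Fintype.ofFinite _
  refine ⟨⋃ c, E c, ?_, ?_⟩
  · have h1 : cone (⋃ c, E c) ⊆ ⋃ c, cone (E c) := by
      rintro v ⟨t, ht0, ht1, y, hy, rfl⟩
      obtain ⟨c, hc⟩ := Set.mem_iUnion.1 hy
      exact Set.mem_iUnion.2 ⟨c, t, ht0, ht1, y, hc, rfl⟩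
    refine (MeasureTheory.measure_mono h1).trans_lt ?_
    refine (MeasureTheory.measure_iUnion_fintype_le _ _).trans_lt ?_
    refine ENNReal.sum_lt_top.2 fun c _ => ?_
    exact (volume_cone_image _ (isIsometry_rm ρ hbil hfut _) D (E c) fun y hy => hy).trans_lt hD
  · intro x
    obtain ⟨l, hl, y, hy, hxy⟩ := hcov x
    obtain ⟨w, hw⟩ := exists_word ρ hwall l hl
    obtain ⟨h, hh⟩ := QuotientGroup.mk_out_eq_mul Γ w
    set t : 𝒲 := Quotient.out (w : 𝒲 ⧸ Γ) with ht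
    have hh' : t = w * h := hh
    refine ⟨Matrix.GeneralLinearGroup.map (Int.castRingHom ℝ) (ρ h⁻¹.1),
      (mem_imG ρ).2 ⟨h⁻¹.1, h⁻¹.2, rfl⟩, actH ρ hbil hfut t⁻¹ y, ?_, ?_⟩
    · refine Set.mem_iUnion.2 ⟨(w : 𝒲 ⧸ Γ), y, hy, rfl⟩
    · rw [rm_coe, actH_val, ← hxy, ← hw, Matrix.mulVec_mulVec, ← rm_mul]
      congr 2
      rw [hh', mul_inv_rev, mul_assoc, inv_mul_cancel, mul_one]
      rfl

theorem P_manifold {𝒲 : Type} [Group 𝒲] (ρ : 𝒲 →* GL (Fin 7) ℤ)
    (hinj : Function.Injective ρ)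
    (hbil : ∀ w x y, bil ((ρ w).1.mulVec x) ((ρ w).1.mulVec y) = bil x y)
    (hfut : ∀ w, 0 < (ρ w).1 0 0)
    (hwall : ∀ s, ∃ w : 𝒲, ∀ x : Fin 7 → ℤ, (ρ w).1.mulVec x = rfl1 (V s) x)
    (Γ : Subgroup 𝒲) [Γ.FiniteIndex]
    (htf : ∀ g ∈ Γ, ∀ n : ℕ, 0 < n → g ^ n = 1 → g = 1) :
    IsHyperbolicManifoldGroup (imG ρ Γ) where
  isometries := by
    intro A hA
    obtain ⟨g, _, h⟩ := (mem_imG ρ).1 hA
    rw [h]
    exact isIsometry_rm ρ hbil hfut g
  discrete := discrete_imG ρ Γ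
  torsionFree := by
    intro A hA n hn h
    obtain ⟨g, hg, h1⟩ := (mem_imG ρ).1 hA
    have h2 : g = 1 := by
      apply htf g hg n hn
      apply rm_injective ρ hinj
      have h3 : ∀ k : ℕ, rm ρ (g ^ k) = (rm ρ g) ^ k := by
        intro k
        induction k with
        | zero => rw [pow_zero, pow_zero, rm_one]
        | succ k ih => rw [pow_succ, pow_succ, rm_mul, ih]
      rw [h3, rm_one, ← h1, ← Units.val_pow_eq_pow_val, h, Units.val_one]
    apply Units.ext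
    rw [h1, h2, rm_one, Units.val_one]
  finiteCovolume := finiteCovolume_imG ρ hbil hfut hwall Γ

end Pool.Agent.Helper96.Hyp6P
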