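import Mathlib

open MeasureTheory ProbabilityTheory Set
open scoped ENNReal

namespace Pool.Agent.Helper96

/-- There is a chain of at most `N` transitions from `v` into `B` whose starting points have
pairwise distinct sites outside `F`. -/
def chainEv {Ω ι V : Type*} (A : V → V → Set Ω) (site : V → ι) (B : Set V) :
    ℕ → V → Set ι → Set Ω
  | 0, v, _ => {_ω | v ∈ B}
  | N + 1, v, F => {ω | v ∈ B ∨ (site v ∉ F ∧ ∃ v', ω ∈ A v v' ∧
      ω ∈ chainEv A site B N v' (insert (site v) F))}

section
variable {Ω ι V : Type*} {A : V → V → Set Ω} {site : V → ι} {B : Set V}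

lemma chainEv_mono : ∀ (N : ℕ) (v : V) (F : Set ι),
    chainEv A site B N v F ⊆ chainEv A site B (N + 1) v F := by
  intro N
  induction N with
  | zero =>
    intro v F ω hω
    exact Or.inl hω
  | succ N ih =>
    intro v F ω hω
    rcases hω with h | ⟨h1, v', h2, h3⟩
    · exact Or.inl h
    · exact Or.inr ⟨h1, v', h2, ih _ _ h3⟩

lemma chainEv_mono_le {N M : ℕ} (h : N ≤ M) (v : V) (F : Set ι) :
    chainEv A site B N v F ⊆ chainEv A site B M v F := by
  induction M, h using Nat.le_induction with
  | base => exact subset_rfl
  | succ M _ ih => exact ih.trans (chainEv_mono M v F)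

variable [m0 : MeasurableSpace Ω] {m : ι → MeasurableSpace Ω} [Countable V]

lemma measurableSet_chainEv (hA : ∀ v v', MeasurableSet[m (site v)] (A v v')) :
    ∀ (N : ℕ) (v : V) (F : Set ι),
      MeasurableSet[⨆ i ∈ Fᶜ, m i] (chainEv A site B N v F) := by
  intro N
  induction N with
  | zero =>
    intro v F
    exact MeasurableSet.const _
  | succ N ih =>
    intro v F
    by_cases hvF : site v ∈ F
    · have : chainEv A site B (N + 1) v F = {_ω | v ∈ B} := by
        ext ω
        constructor
        · rintro (h | ⟨h1, _⟩)
          · exact h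
          · exact absurd hvF h1
        · intro h
          exact Or.inl h
      rw [this]
      exact MeasurableSet.const _
    · have : chainEv A site B (N + 1) v F =
          {_ω | v ∈ B} ∪ ⋃ v', (A v v' ∩ chainEv A site B N v' (insert (site v) F)) := by
        ext ω
        constructor
        · rintro (h | ⟨_, v', h2, h3⟩)
          · exact Or.inl h
          · exact Or.inr (mem_iUnion.2 ⟨v', h2, h3⟩)
        · rintro (h | h)
          · exact Or.inl h
          · obtain ⟨v', h2, h3⟩ := mem_iUnion.1 h
            exact Or.inr ⟨hvF, v', h2, h3⟩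
      rw [this]
      refine MeasurableSet.union (MeasurableSet.const _) (MeasurableSet.iUnion fun v' => ?_)
      refine MeasurableSet.inter ?_ ?_
      · have hle : m (site v) ≤ ⨆ i ∈ Fᶜ, m i := le_iSup₂_of_le (site v) hvF le_rfl
        exact hle _ (hA v v')
      · have hle : (⨆ i ∈ (insert (site v) F)ᶜ, m i) ≤ ⨆ i ∈ Fᶜ, m i := by
          apply biSup_mono
          intro i hi hiF
          exact hi (mem_insert_of_mem _ hiF)
        exact hle _ (ih v' _)

/-- The probability that there is such a chain is at most the value of any supersolution. -/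
lemma chainEv_bound {μ : Measure Ω} [IsProbabilityMeasure μ]
    (h_le : ∀ i, m i ≤ m0) (h_indep : iIndep m μ)
    (hA : ∀ v v', MeasurableSet[m (site v)] (A v v'))
    (h : V → ℝ≥0∞) (hB : ∀ v ∈ B, 1 ≤ h v)
    (hs : ∀ v, v ∉ B → ∑' v', μ (A v v') * h v' ≤ h v) :
    ∀ (N : ℕ) (v : V) (F : Set ι), μ (chainEv A site B N v F) ≤ h v := by
  intro N
  induction N with
  | zero =>
    intro v F
    by_cases hv : v ∈ B
    · exact prob_le_one.trans (hB v hv)
    · have : chainEv A site B 0 v F = ∅ := by
        ext ω
        simp [chainEv, hv]
      simp [this]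
  | succ N ih =>
    intro v F
    by_cases hv : v ∈ B
    · exact prob_le_one.trans (hB v hv)
    · have hsub : chainEv A site B (N + 1) v F ⊆
          ⋃ v', (A v v' ∩ chainEv A site B N v' (insert (site v) F)) := by
        rintro ω (h | ⟨_, v', h2, h3⟩)
        · exact absurd h hv
        · exact mem_iUnion.2 ⟨v', h2, h3⟩
      calc μ (chainEv A site B (N + 1) v F)
          ≤ μ (⋃ v', (A v v' ∩ chainEv A site B N v' (insert (site v) F))) := measure_mono hsub
        _ ≤ ∑' v', μ (A v v' ∩ chainEv A site B N v' (insert (site v) F)) :=
            measure_iUnion_le _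
        _ ≤ ∑' v', μ (A v v') * h v' := by
            refine ENNReal.tsum_le_tsum fun v' => ?_
            have hdis : Disjoint ({site v} : Set ι) (insert (site v) F)ᶜ := by
              rw [Set.disjoint_singleton_left]
              intro hh
              exact hh (mem_insert _ _)
            have hind := indep_iSup_of_disjoint h_le h_indep hdis
            have h1 : MeasurableSet[⨆ i ∈ ({site v} : Set ι), m i] (A v v') := by
              have hle : m (site v) ≤ ⨆ i ∈ ({site v} : Set ι), m i :=
                le_iSup₂_of_le (site v) rfl le_rfl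
              exact hle _ (hA v v')
            have h2 := measurableSet_chainEv (B := B) hA N v' (insert (site v) F)
            have h3 := (Indep_iff _ _ _).1 hind _ _ h1 h2
            rw [h3]
            exact mul_le_mul' le_rfl (ih _ _)
        _ ≤ h v := hs v hv

end

end Pool.Agent.Helper96
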