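import Pool.Agent.Helper96.FrogProb

open MeasureTheory ProbabilityTheory Set
open scoped ENNReal

namespace Pool.Agent.Helper96.Frog

variable {d : ℕ}

/-- No particle of `x` makes its first active time step in direction `e`. -/
def closedDir (p : ℝ) (x : Site d) (e : Dir d) : Set (Config d) :=
  {ω | ω x ∈ {b : Block d | ∀ i < b.1, b.2 i ∈ (firstStep p e)ᶜ}}

lemma measurableSet_blockForall {S : Set (Particle d)} (hS : MeasurableSet S) :
    MeasurableSet {b : Block d | ∀ i < b.1, b.2 i ∈ S} := by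
  have : {b : Block d | ∀ i < b.1, b.2 i ∈ S} = ⋂ i : ℕ, ({b : Block d | b.1 ≤ i} ∪
      {b : Block d | b.2 i ∈ S}) := by
    ext b
    simp only [mem_ofPred_eq, mem_iInter, mem_union]
    constructor
    · intro h i
      by_cases hi : i < b.1
      · exact Or.inr (h i hi)
      · exact Or.inl (by omega)
    · intro h i hi
      rcases h i with h | h
      · omega
      · exact h
  rw [this]
  refine MeasurableSet.iInter fun i => MeasurableSet.union ?_ ?_
  · exact measurableSet_le measurable_fst measurable_const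
  · exact (measurable_pi_apply i).comp measurable_snd hS

lemma law_closedDir [NeZero d] (m : ℕ) {p : ℝ} (hp0 : 0 ≤ p) (hp1 : p ≤ 1) (x : Site d)
    (e : Dir d) :
    law d (PMF.pure m) (closedDir p x e) = ENNReal.ofReal (1 - p / (2 * d)) ^ m := by
  have := isProb_particle (d := d)
  unfold closedDir
  have hS : MeasurableSet (firstStep p e)ᶜ := (measurableSet_firstStep p e).compl
  rw [law_eval _ x (measurableSet_blockForall hS), blockLaw_forall m hS,
    prob_compl_eq_one_sub (measurableSet_firstStep p e), particleLaw_firstStep hp0 hp1,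
    ENNReal.ofReal_sub _ (by positivity), ENNReal.ofReal_one]

lemma not_mem_closedDir {p : ℝ} {x : Site d} {e : Dir d} {ω : Config d}
    (h : ω ∉ closedDir p x e) : ∃ i < (ω x).1, traj p x ((ω x).2 i) 1 = x + vec e := by
  simp only [closedDir, mem_ofPred_eq, not_forall, mem_compl_iff, not_not] at h
  obtain ⟨i, hi, h⟩ := h
  exact ⟨i, hi, (traj_one_iff p x _ e).2 h⟩

/-- The point with `n + 1 - c` steps in direction `e` and `c - 1` steps in direction `e'`. -/
def quad (x0 : Site d) (e e' : Dir d) (v : ℕ × ℕ) : Site d :=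
  x0 + ((v.1 + 1 - v.2 : ℤ) • vec e + (v.2 - 1 : ℤ) • vec e')

lemma quad_injective (x0 : Site d) {e e' : Dir d} (hee : e.1 ≠ e'.1) :
    Function.Injective (quad x0 e e') := by
  rintro ⟨n, c⟩ ⟨n', c'⟩ h
  have hv : ∀ u : Dir d, vec u u.1 = 1 ∨ vec u u.1 = -1 := by
    intro u
    simp only [vec, if_true]
    split_ifs
    · exact Or.inl rfl
    · exact Or.inr rfl
  have h0 : ∀ u u' : Dir d, u.1 ≠ u'.1 → vec u u'.1 = 0 := by
    intro u u' hu
    simp only [vec]
    rw [if_neg hu.symm]
  have h1 := congrFun h e.1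
  have h2 := congrFun h e'.1
  simp only [quad, Pi.add_apply, Pi.smul_apply, smul_eq_mul, h0 e' e hee.symm, h0 e e' hee,
    mul_zero, add_zero, zero_add, add_right_inj] at h1 h2
  have h3 : (c : ℤ) = c' := by
    rcases hv e' with h | h <;> rw [h] at h2 <;> linarith
  have h4 : (n : ℤ) = n' := by
    rcases hv e with h | h <;> rw [h] at h1 <;> linarith
  have h5 : c = c' := by exact_mod_cast h3
  have h6 : n = n' := by exact_mod_cast h4
  rw [h5, h6]

/-- The closed sites of the quadrant spanned by `e` and `e'` at `x0`. -/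
def closedAt (p : ℝ) (x0 : Site d) (e e' : Dir d) (v : ℕ × ℕ) : Set (Config d) :=
  closedDir p (quad x0 e e' v) e ∪ closedDir p (quad x0 e e' v) e'

lemma quad_reach_bound [NeZero d] (m : ℕ) {p : ℝ} (hp0 : 0 ≤ p) (hp1 : p ≤ 1) (x0 : Site d)
    {e e' : Dir d} (hee : e.1 ≠ e'.1)
    (hq : 27 * (2 * ENNReal.ofReal (1 - p / (2 * d)) ^ m) ≤ 1) (n c : ℕ) :
    law d (PMF.pure m) (Reach (closedAt p x0 e e') (n, c)) ≤
      3 ^ n * (3 * (2 * ENNReal.ofReal (1 - p / (2 * d)) ^ m)) ^ c := by
  have := isProb_law (d := d) (PMF.pure m)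
  refine reach_bound (m := fun x : Site d =>
    MeasurableSpace.comap (fun ω : Config d => ω x) inferInstance) ?_ (iIndep_blocks _)
    (quad x0 e e') (quad_injective x0 hee) ?_ _ hq ?_ n c
  · intro x
    exact (measurable_pi_apply x).comap_le
  · intro v
    refine MeasurableSet.union ?_ ?_
    · exact ⟨_, measurableSet_blockForall (measurableSet_firstStep p e).compl, rfl⟩
    · exact ⟨_, measurableSet_blockForall (measurableSet_firstStep p e').compl, rfl⟩
  · intro v
    refine (measure_union_le _ _).trans ?_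
    rw [law_closedDir m hp0 hp1, law_closedDir m hp0 hp1]
    exact (two_mul _).ge

lemma exists_openPath {p : ℝ} {x0 : Site d} {e e' : Dir d} {ω : Config d}
    (h : ω ∉ Reach (closedAt p x0 e e') (0, 1)) (f : Site d →+ ℤ) (he : f (vec e) = 1)
    (he' : f (vec e') = 1) :
    ∃ x : ℕ → Site d, x 0 = x0 ∧ (∀ k, f (x k) = f x0 + k) ∧
      (∀ k, ∃ i < (ω (x k)).1, traj p (x k) ((ω (x k)).2 i) 1 = x (k + 1)) ∧
      (∀ n β, ω ∉ Reach (closedAt p x0 e e') (n, β + 1) →
        ∃ b ≤ β, x n = x0 + ((n - b : ℤ) • vec e + (b : ℤ) • vec e')) := by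
  obtain ⟨b, hb0, hb1, hb2, hb3⟩ := exists_path h
  have hx : ∀ n, quad x0 e e' (n, b n + 1) =
      x0 + ((n - b n : ℤ) • vec e + (b n : ℤ) • vec e') := by
    intro n
    simp only [quad]
    push_cast
    congr 3 <;> ring
  refine ⟨fun n => quad x0 e e' (n, b n + 1), ?_, ?_, ?_, ?_⟩
  · show quad x0 e e' (0, b 0 + 1) = x0
    rw [hx, hb0]
    simp
  · intro k
    show f (quad x0 e e' (k, b k + 1)) = _
    rw [hx, map_add, map_add, map_zsmul, map_zsmul, he, he']
    simp
  · intro k
    show ∃ i < (ω (quad x0 e e' (k, b k + 1))).1,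
      traj p (quad x0 e e' (k, b k + 1)) ((ω (quad x0 e e' (k, b k + 1))).2 i) 1 =
        quad x0 e e' (k + 1, b (k + 1) + 1)
    have h2 := hb2 k
    simp only [closedAt, mem_union, not_or] at h2
    rcases hb1 k with h1 | h1
    · obtain ⟨i, hi, hi'⟩ := not_mem_closedDir h2.1
      refine ⟨i, hi, ?_⟩
      rw [hi', hx, hx, h1]
      push_cast
      module
    · obtain ⟨i, hi, hi'⟩ := not_mem_closedDir h2.2
      refine ⟨i, hi, ?_⟩
      rw [hi', hx, hx, h1]
      push_cast
      module
  · intro n β hβ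
    exact ⟨b n, hb3 n β hβ, hx n⟩

end Pool.Agent.Helper96.Frog
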