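import Pool.Agent.Helper96.FrogProb

open MeasureTheory ProbabilityTheory Set
open scoped ENNReal

namespace Pool.Agent.Helper96.Frog

variable {d : ℕ}

/-- The weight of a step. -/
noncomputable def stepW (i0 : Fin d) (a : ℝ≥0∞) (e : Dir d) : ℝ≥0∞ := a ^ (1 - vec e i0)

/-- The mean weight of a step. -/
noncomputable def meanW (i0 : Fin d) (a : ℝ≥0∞) : ℝ≥0∞ :=
  ∫⁻ e, stepW i0 a e ∂(uniformOn (Set.univ : Set (Dir d)))

lemma lintegral_steps [NeZero d] (i0 : Fin d) (a : ℝ≥0∞) (n : ℕ) :
    ∫⁻ f, ∏ k ∈ Finset.range n, stepW i0 a (f k)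
      ∂(Measure.infinitePi fun _ : ℕ => uniformOn (Set.univ : Set (Dir d))) =
      meanW i0 a ^ n := by
  have := isProb_dir (d := d)
  have hind := iIndepFun_infinitePi (P := fun _ : ℕ => uniformOn (Set.univ : Set (Dir d)))
    (X := fun _ => stepW i0 a) (fun _ => measurable_of_countable _)
  rw [lintegral_prod_eq_prod_lintegral_of_indepFun (Finset.range n)
    (fun k (f : ℕ → Dir d) => stepW i0 a (f k)) hind
    (fun k => (measurable_of_countable (stepW i0 a)).comp (measurable_pi_apply k))]
  have h1 : ∀ k : ℕ, ∫⁻ f, stepW i0 a (f k)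
      ∂(Measure.infinitePi fun _ : ℕ => uniformOn (Set.univ : Set (Dir d))) = meanW i0 a := by
    intro k
    exact (measurePreserving_eval_infinitePi
      (fun _ : ℕ => uniformOn (Set.univ : Set (Dir d))) k).lintegral_comp
      (measurable_of_countable (stepW i0 a))
  simp only [h1, Finset.prod_const, Finset.card_range]

lemma lintegral_coin {p : ℝ} (hp0 : 0 ≤ p) (hp1 : p ≤ 1) (a b : ℝ≥0∞) :
    ∫⁻ u : unitInterval, (if (u : ℝ) ≤ p then b else a) =
      ENNReal.ofReal p * b + ENNReal.ofReal (1 - p) * a := by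
  have h1 : (fun u : unitInterval => if (u : ℝ) ≤ p then b else a) =
      fun u => (Set.Iic (⟨p, hp0, hp1⟩ : unitInterval)).indicator (fun _ => b) u +
        (Set.Iic (⟨p, hp0, hp1⟩ : unitInterval))ᶜ.indicator (fun _ => a) u := by
    funext u
    by_cases hu : (u : ℝ) ≤ p
    · have : u ∈ Set.Iic (⟨p, hp0, hp1⟩ : unitInterval) := by
        rw [Set.mem_Iic, ← Subtype.coe_le_coe]
        exact hu
      rw [if_pos hu, Set.indicator_of_mem this, Set.indicator_of_notMem (notMem_compl_iff.2 this),
        add_zero]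
    · have : u ∉ Set.Iic (⟨p, hp0, hp1⟩ : unitInterval) := by
        rw [Set.mem_Iic, ← Subtype.coe_le_coe]
        exact hu
      rw [if_neg hu, Set.indicator_of_notMem this, Set.indicator_of_mem (mem_compl this),
        zero_add]
  rw [h1, lintegral_add_left (measurable_const.indicator measurableSet_Iic),
    lintegral_indicator measurableSet_Iic, lintegral_indicator measurableSet_Iic.compl,
    lintegral_const, lintegral_const, Measure.restrict_apply MeasurableSet.univ,
    Measure.restrict_apply MeasurableSet.univ, Set.univ_inter, Set.univ_inter,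
    unitInterval.volume_Iic, prob_compl_eq_one_sub measurableSet_Iic, unitInterval.volume_Iic,
    ENNReal.ofReal_sub _ hp0, ENNReal.ofReal_one, mul_comm b, mul_comm a]

lemma lintegral_coins {p : ℝ} (hp0 : 0 ≤ p) (hp1 : p ≤ 1) (a b : ℝ≥0∞) (n : ℕ) :
    ∫⁻ c, ∏ k ∈ Finset.range n, (if (c k : ℝ) ≤ p then b else a)
      ∂(Measure.infinitePi fun _ : ℕ => (volume : Measure unitInterval)) =
      (ENNReal.ofReal p * b + ENNReal.ofReal (1 - p) * a) ^ n := by
  have hm : Measurable fun u : unitInterval => if (u : ℝ) ≤ p then b else a :=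
    Measurable.ite (measurableSet_le (by fun_prop) measurable_const) measurable_const
      measurable_const
  have hind := iIndepFun_infinitePi (P := fun _ : ℕ => (volume : Measure unitInterval))
    (X := fun _ => fun u : unitInterval => if (u : ℝ) ≤ p then b else a) (fun _ => hm)
  rw [lintegral_prod_eq_prod_lintegral_of_indepFun (Finset.range n)
    (fun k (c : ℕ → unitInterval) => if (c k : ℝ) ≤ p then b else a) hind
    (fun k => hm.comp (measurable_pi_apply k))]
  have h1 : ∀ k : ℕ, ∫⁻ c : ℕ → unitInterval, (if (c k : ℝ) ≤ p then b else a)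
      ∂(Measure.infinitePi fun _ : ℕ => (volume : Measure unitInterval)) =
        ENNReal.ofReal p * b + ENNReal.ofReal (1 - p) * a := by
    intro k
    rw [← lintegral_coin hp0 hp1]
    exact (measurePreserving_eval_infinitePi
      (fun _ : ℕ => (volume : Measure unitInterval)) k).lintegral_comp hm
  simp only [h1, Finset.prod_const, Finset.card_range]

/-- The exponential moment of the displacement after `s` active time steps. -/
lemma lintegral_traj [NeZero d] (i0 : Fin d) {p : ℝ} (hp0 : 0 ≤ p) (hp1 : p ≤ 1) {a : ℝ≥0∞}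
    (ha0 : a ≠ 0) (hat : a ≠ ⊤) (x : Site d) (s : ℕ) :
    ∫⁻ π, a ^ ((s : ℤ) - (traj p x π s i0 - x i0)) ∂(particleLaw d) =
      (ENNReal.ofReal p * meanW i0 a + ENNReal.ofReal (1 - p) * a) ^ s := by
  classical
  have := isProb_dir (d := d)
  have hmeas : Measurable fun π : Particle d => a ^ ((s : ℤ) - (traj p x π s i0 - x i0)) := by
    have h1 : Measurable fun π : Particle d => (s : ℤ) - (traj p x π s i0 - x i0) :=
      (((measurable_pi_apply i0).comp (measurable_traj p x s)).sub_const _).const_sub _
    exact (measurable_of_countable fun n : ℤ => a ^ n).comp h1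
  have hadd : ∀ u v : ℤ, a ^ (u + v) = a ^ u * a ^ v := ENNReal.zpow_add ha0 hat
  have hprod : ∀ (n : ℕ) (v : ℕ → ℤ), a ^ (∑ k ∈ Finset.range n, v k) =
      ∏ k ∈ Finset.range n, a ^ v k := by
    intro n v
    induction n with
    | zero => simp
    | succ n ih => rw [Finset.sum_range_succ, Finset.prod_range_succ, hadd, ih]
  rw [particleLaw, lintegral_prod_symm _ hmeas.aemeasurable]
  have h2 : ∀ c : ℕ → unitInterval, ∫⁻ f, a ^ ((s : ℤ) - (traj p x (f, c) s i0 - x i0))
      ∂(Measure.infinitePi fun _ : ℕ => uniformOn (Set.univ : Set (Dir d))) =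
      ∏ k ∈ Finset.range s, (if (c k : ℝ) ≤ p then meanW i0 a else a) := by
    intro c
    set N : ℕ := ((Finset.range s).filter fun k => (c k : ℝ) ≤ p).card with hN
    have hNs : N ≤ s := by
      rw [hN]
      exact (Finset.card_filter_le _ _).trans (by simp)
    have h3 : ∀ f : ℕ → Dir d, a ^ ((s : ℤ) - (traj p x (f, c) s i0 - x i0)) =
        a ^ (s - N) * ∏ k ∈ Finset.range N, stepW i0 a (f k) := by
      intro f
      have h4 : traj p x (f, c) s i0 - x i0 = ∑ k ∈ Finset.range N, vec (f k) i0 := by
        simp only [traj, Pi.add_apply, add_sub_cancel_left, Finset.sum_apply]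
        rw [hN]
        unfold advances
        congr
      have h5 : ((s : ℤ) - (traj p x (f, c) s i0 - x i0)) =
          ((s - N : ℕ) : ℤ) + ∑ k ∈ Finset.range N, (1 - vec (f k) i0) := by
        rw [h4, Finset.sum_sub_distrib, Nat.cast_sub hNs]
        simp
      rw [h5, hadd, hprod, zpow_natCast]
      rfl
    have h6 : ∏ k ∈ Finset.range s, (if (c k : ℝ) ≤ p then meanW i0 a else a) =
        meanW i0 a ^ N * a ^ (s - N) := by
      rw [Finset.prod_ite, Finset.prod_const, Finset.prod_const, ← hN]
      congr 2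
      have := Finset.card_filter_add_card_filter_not (s := Finset.range s)
        (fun k => (c k : ℝ) ≤ p)
      rw [Finset.card_range] at this
      omega
    simp only [h3]
    have hmw : Measurable fun f : ℕ → Dir d => ∏ k ∈ Finset.range N, stepW i0 a (f k) :=
      Finset.measurable_prod _ fun k _ =>
        (measurable_of_countable (stepW i0 a)).comp (measurable_pi_apply k)
    rw [lintegral_const_mul _ hmw, lintegral_steps, h6, mul_comm]
  simp only [h2]
  exact lintegral_coins hp0 hp1 a (meanW i0 a) s

end Pool.Agent.Helper96.Frog
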