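import Pool.Agent.Helper96.FrogQuad

open MeasureTheory ProbabilityTheory Set
open scoped ENNReal

namespace Pool.Agent.Helper96.Frog

variable {d : ℕ}

/-- The linear functional `y ↦ y_{i1} + y_{i0}`. -/
def fPlus (i0 i1 : Fin d) : Site d →+ ℤ :=
  Pi.evalAddMonoidHom (fun _ => ℤ) i1 + Pi.evalAddMonoidHom (fun _ => ℤ) i0

/-- The linear functional `y ↦ y_{i1} - y_{i0}`. -/
def fMinus (i0 i1 : Fin d) : Site d →+ ℤ :=
  Pi.evalAddMonoidHom (fun _ => ℤ) i1 - Pi.evalAddMonoidHom (fun _ => ℤ) i0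

lemma fPlus_apply (i0 i1 : Fin d) (y : Site d) : fPlus i0 i1 y = y i1 + y i0 := rfl

lemma fMinus_apply (i0 i1 : Fin d) (y : Site d) : fMinus i0 i1 y = y i1 - y i0 := rfl

lemma fPlus_vec_le {i0 i1 : Fin d} (h : i0 ≠ i1) (e : Dir d) : fPlus i0 i1 (vec e) ≤ 1 := by
  rw [fPlus_apply]
  simp only [vec]
  by_cases h1 : i1 = e.1
  · have h2 : ¬ i0 = e.1 := fun hh => h (hh.trans h1.symm)
    rw [if_pos h1, if_neg h2]
    split_ifs <;> norm_num
  · rw [if_neg h1]
    split_ifs <;> norm_num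

lemma fMinus_vec_le {i0 i1 : Fin d} (h : i0 ≠ i1) (e : Dir d) : fMinus i0 i1 (vec e) ≤ 1 := by
  rw [fMinus_apply]
  simp only [vec]
  by_cases h1 : i1 = e.1
  · have h2 : ¬ i0 = e.1 := fun hh => h (hh.trans h1.symm)
    rw [if_pos h1, if_neg h2]
    split_ifs <;> norm_num
  · rw [if_neg h1]
    split_ifs <;> norm_num

/-- Coexistence holds as soon as the quadrant percolations of both types are strongly
supercritical. -/
theorem coexistence [NeZero d] {i0 i1 : Fin d} (h01 : i0 ≠ i1) (m : ℕ) {p : Fin 2 → ℝ}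
    (hp0 : ∀ j, 0 ≤ p j) (hp1 : ∀ j, p j ≤ 1)
    (hq : ∀ j, 27 * (2 * ENNReal.ofReal (1 - p j / (2 * d)) ^ m) ≤ 1)
    (tie : Config d → ℕ → Site d → Fin 2) :
    0 < law d (PMF.pure m) {ω | ActivatesInfinitely p (tie ω) (vec (i0, true)) 0 ω ∧
      ActivatesInfinitely p (tie ω) (vec (i0, true)) 1 ω} := by
  have := isProb_law (d := d) (PMF.pure m)
  set z : Site d := vec (i0, true) with hz
  set R0 : Set (Config d) := Reach (closedAt (p 0) 0 (i0, false) (i1, true)) (0, 1) with hR0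
  set R1 : Set (Config d) := Reach (closedAt (p 1) z (i0, true) (i1, true)) (0, 1) with hR1
  have b0 : law d (PMF.pure m) R0 ≤ 9⁻¹ := by
    refine (quad_reach_bound m (hp0 0) (hp1 0) 0 (by simpa using h01) (hq 0) 0 1).trans ?_
    rw [pow_zero, one_mul, pow_one, ENNReal.le_inv_iff_mul_le]
    refine le_trans (le_of_eq ?_) (hq 0)
    ring
  have b1 : law d (PMF.pure m) R1 ≤ 9⁻¹ := by
    refine (quad_reach_bound m (hp0 1) (hp1 1) z (by simpa using h01) (hq 1) 0 1).trans ?_
    rw [pow_zero, one_mul, pow_one, ENNReal.le_inv_iff_mul_le]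
    refine le_trans (le_of_eq ?_) (hq 1)
    ring
  have hsub : (Set.univ : Set (Config d)) ⊆ (R0 ∪ R1) ∪
      {ω | ActivatesInfinitely p (tie ω) z 0 ω ∧ ActivatesInfinitely p (tie ω) z 1 ω} := by
    intro ω _
    by_cases h0 : ω ∈ R0
    · exact Or.inl (Or.inl h0)
    by_cases h1 : ω ∈ R1
    · exact Or.inl (Or.inr h1)
    refine Or.inr ⟨?_, ?_⟩
    · obtain ⟨x, hx0, hx, hopen, -⟩ := exists_openPath h0 (fMinus i0 i1)
        (by rw [fMinus_apply]; simp [vec, h01.symm]) (by rw [fMinus_apply]; simp [vec, h01])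
      refine activatesInfinitely_of_fullSpeed (fMinus i0 i1) (fMinus_vec_le h01) (x := x) ?_
        (by rw [hx0]; rfl) ?_ hopen
      · intro j' hj'
        have : j' = 1 := (fin2_cases j').resolve_left hj'
        subst this
        show fMinus i0 i1 z < fMinus i0 i1 0
        rw [hz, fMinus_apply, fMinus_apply]
        simp [vec, h01.symm]
      · intro k
        rw [hx k]
        rfl
    · obtain ⟨x, hx0, hx, hopen, -⟩ := exists_openPath h1 (fPlus i0 i1)
        (by rw [fPlus_apply]; simp [vec, h01.symm]) (by rw [fPlus_apply]; simp [vec, h01])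
      refine activatesInfinitely_of_fullSpeed (fPlus i0 i1) (fPlus_vec_le h01) (x := x) ?_
        (by rw [hx0]; rfl) ?_ hopen
      · intro j' hj'
        have : j' = 0 := (fin2_cases j').resolve_right hj'
        subst this
        show fPlus i0 i1 0 < fPlus i0 i1 z
        rw [hz, fPlus_apply, fPlus_apply]
        simp [vec, h01.symm]
      · intro k
        rw [hx k]
        rfl
  by_contra hcon
  have hzero : law d (PMF.pure m) {ω | ActivatesInfinitely p (tie ω) z 0 ω ∧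
      ActivatesInfinitely p (tie ω) z 1 ω} = 0 := le_antisymm (not_lt.1 hcon) zero_le
  have h1 : (1 : ℝ≥0∞) ≤ 9⁻¹ + 9⁻¹ := by
    calc (1 : ℝ≥0∞) = law d (PMF.pure m) Set.univ := measure_univ.symm
      _ ≤ law d (PMF.pure m) ((R0 ∪ R1) ∪ _) := measure_mono hsub
      _ ≤ law d (PMF.pure m) (R0 ∪ R1) + _ := measure_union_le _ _
      _ ≤ (law d (PMF.pure m) R0 + law d (PMF.pure m) R1) + 0 :=
          add_le_add (measure_union_le _ _) hzero.le
      _ ≤ 9⁻¹ + 9⁻¹ := by
          rw [add_zero]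
          exact add_le_add b0 b1
  have h2 : (9⁻¹ + 9⁻¹ : ℝ≥0∞) = ENNReal.ofReal (2 / 9) := by
    rw [show (2 / 9 : ℝ) = 9⁻¹ + 9⁻¹ by norm_num, ENNReal.ofReal_add (by norm_num) (by norm_num),
      ENNReal.ofReal_inv_of_pos (by norm_num)]
    simp
  rw [h2, ← ENNReal.ofReal_one, ENNReal.ofReal_le_ofReal_iff (by norm_num)] at h1
  norm_num at h1

end Pool.Agent.Helper96.Frog
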