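import Mathlib

/-!
# The two-type frog model: definitions

Randomness: every site `x` of `ℤ^d` carries an independent block, consisting of the number of
particles at `x` (law `ν`) and, for every particle, an independent simple random walk path (its
sequence of steps) together with independent uniform variables on `[0,1]`. In its `k`-th active time
step a particle of a type with parameter `p` advances to the next point of its path iff the `k`-th
uniform variable is at most `p`.
-/

open MeasureTheory ProbabilityTheory

namespace Pool.Agent.Helper96.Frog

/-- The sites of the lattice `ℤ^d`. -/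
abbrev Site (d : ℕ) : Type := Fin d → ℤ

/-- The `2d` directions of a nearest-neighbour step. -/
abbrev Dir (d : ℕ) : Type := Fin d × Bool

/-- The unit vector of a direction: `+e_j` for `(j, true)` and `-e_j` for `(j, false)`. -/
def vec {d : ℕ} (e : Dir d) : Site d :=
  fun j => if j = e.1 then (if e.2 then 1 else -1) else 0

/-- The data of one particle: the steps of its path, and its uniform variables. -/
abbrev Particle (d : ℕ) : Type := (ℕ → Dir d) × (ℕ → unitInterval)

/-- The data of one site: the number of its particles, and the data of its particles. Only the
particles with index smaller than that number exist. -/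
abbrev Block (d : ℕ) : Type := ℕ × (ℕ → Particle d)

/-- The data of all sites. -/
abbrev Config (d : ℕ) : Type := Site d → Block d

/-- The law of one particle: i.i.d. uniform steps and i.i.d. uniform variables on `[0,1]`. -/
noncomputable def particleLaw (d : ℕ) : Measure (Particle d) :=
  (Measure.infinitePi fun _ : ℕ => uniformOn (Set.univ : Set (Dir d))).prod
    (Measure.infinitePi fun _ : ℕ => (volume : Measure unitInterval))

/-- The law of the data of one site. -/
noncomputable def blockLaw (d : ℕ) (ν : PMF ℕ) : Measure (Block d) :=
  ν.toMeasure.prod (Measure.infinitePi fun _ : ℕ => particleLaw d)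

/-- The law of all the data: the sites are independent and identically distributed. -/
noncomputable def law (d : ℕ) (ν : PMF ℕ) : Measure (Config d) :=
  Measure.infinitePi fun _ : Site d => blockLaw d ν

open Classical in
/-- The number of advances of a particle during its first `s` active time steps, if in each of them
it advances with probability `p`. -/
noncomputable def advances {d : ℕ} (p : ℝ) (π : Particle d) (s : ℕ) : ℕ :=
  ((Finset.range s).filter fun k => (π.2 k : ℝ) ≤ p).card

/-- The position of a particle of site `x` after its first `s` active time steps. -/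
noncomputable def traj {d : ℕ} (p : ℝ) (x : Site d) (π : Particle d) (s : ℕ) : Site d :=
  x + ∑ k ∈ Finset.range (advances p π s), vec (π.1 k)

/-- In the two-type process with parameters `p 0` (type 1) and `p 1` (type 2), let `σ x = some (t, j)`
record that site `x` was discovered at time `t` with type `j`. Then `Arrives p ω σ n j y` says that
at time `n` some particle of type `j` sits at `y`. -/
def Arrives {d : ℕ} (p : Fin 2 → ℝ) (ω : Config d) (σ : Site d → Option (ℕ × Fin 2)) (n : ℕ)
    (j : Fin 2) (y : Site d) : Prop :=
  ∃ x t i, σ x = some (t, j) ∧ i < (ω x).1 ∧ traj (p j) x ((ω x).2 i) (n - t) = y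

open Classical in
/-- The two-type process started from type 1 (index `0`) at the origin and type 2 (index `1`) at `z`:
`twoType p tie z ω n y = some (t, j)` says that `y` was discovered at time `t ≤ n` and that its
particles are of type `j`; `none` says that `y` has not been discovered by time `n`. If both types
arrive at an undiscovered site `y` at time `n`, the type is given by the tie-breaking rule
`tie n y`. -/
noncomputable def twoType {d : ℕ} (p : Fin 2 → ℝ) (tie : ℕ → Site d → Fin 2) (z : Site d)
    (ω : Config d) : ℕ → Site d → Option (ℕ × Fin 2)
  | 0 => fun y => if y = 0 then some (0, 0) else if y = z then some (0, 1) else none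
  | n + 1 => fun y =>
    match twoType p tie z ω n y with
    | some s => some s
    | none =>
      if Arrives p ω (twoType p tie z ω n) (n + 1) 0 y then
        (if Arrives p ω (twoType p tie z ω n) (n + 1) 1 y then some (n + 1, tie (n + 1) y)
          else some (n + 1, 0))
      else (if Arrives p ω (twoType p tie z ω n) (n + 1) 1 y then some (n + 1, 1) else none)

/-- The event that type `j` activates infinitely many particles: infinitely many particles `(x, i)`
sit at sites `x` that are at some time discovered with type `j`. -/
def ActivatesInfinitely {d : ℕ} (p : Fin 2 → ℝ) (tie : ℕ → Site d → Fin 2) (z : Site d)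
    (j : Fin 2) (ω : Config d) : Prop :=
  {q : Site d × ℕ | q.2 < (ω q.1).1 ∧ ∃ n t, twoType p tie z ω n q.1 = some (t, j)}.Infinite

open Classical in
/-- The one-type process with parameter `p`, started from the particles at the origin:
`oneType p ω n y = some t` says that `y` was discovered at time `t ≤ n`, and `none` says that `y`
has not been discovered by time `n`. -/
noncomputable def oneType {d : ℕ} (p : ℝ) (ω : Config d) : ℕ → Site d → Option ℕ
  | 0 => fun y => if y = 0 then some 0 else none
  | n + 1 => fun y =>
    match oneType p ω n y with
    | some t => some t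
    | none =>
      if ∃ x t i, oneType p ω n x = some t ∧ i < (ω x).1 ∧
        traj p x ((ω x).2 i) (n + 1 - t) = y then some (n + 1) else none

/-- The set `ξ_n` of the sites discovered by time `n` in the one-type process. -/
def discovered {d : ℕ} (p : ℝ) (ω : Config d) (n : ℕ) : Set (Site d) :=
  {y | oneType p ω n y ≠ none}

/-- The union of the unit cubes `x + (-1/2, 1/2]^d`, `x ∈ S`. -/
def cubes {d : ℕ} (S : Set (Site d)) : Set (Fin d → ℝ) :=
  {y | ∃ x ∈ S, ∀ j, -(1 / 2 : ℝ) < y j - x j ∧ y j - x j ≤ 1 / 2}

/-- `A` is the asymptotic shape `𝒜(ν, p)` of the one-type process: it is compact and convex, and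
almost surely, if the origin is occupied, then for all `ε ∈ (0,1)` and all large `n`,
`(1 - ε) A ⊆ n⁻¹ (ξ_n + (-1/2, 1/2]^d) ⊆ (1 + ε) A`. -/
def IsShape {d : ℕ} (ν : PMF ℕ) (p : ℝ) (A : Set (Fin d → ℝ)) : Prop :=
  IsCompact A ∧ Convex ℝ A ∧
    ∀ᵐ ω ∂(law d ν), 1 ≤ (ω 0).1 → ∀ ε : ℝ, 0 < ε → ε < 1 → ∀ᶠ n : ℕ in Filter.atTop,
      (∀ a ∈ A, ((n : ℝ) * (1 - ε)) • a ∈ cubes (discovered p ω n)) ∧
      (∀ y ∈ cubes (discovered p ω n), ∃ a ∈ A, y = ((n : ℝ) * (1 + ε)) • a)

end Pool.Agent.Helper96.Frog
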