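import Pool.Agent.Helper96.FrogDefs

open MeasureTheory ProbabilityTheory

namespace Pool.Agent.Helper96.Frog

variable {d : ℕ}

lemma advances_le (p : ℝ) (π : Particle d) (s : ℕ) : advances p π s ≤ s := by
  unfold advances
  exact (Finset.card_filter_le _ _).trans (by simp)

lemma map_traj_le (f : Site d →+ ℤ) (hf : ∀ e, f (vec e) ≤ 1) (p : ℝ) (x : Site d)
    (π : Particle d) (s : ℕ) : f (traj p x π s) ≤ f x + s := by
  unfold traj
  rw [map_add, map_sum]
  have h1 : ∑ k ∈ Finset.range (advances p π s), f (vec (π.1 k)) ≤
      ∑ _k ∈ Finset.range (advances p π s), (1 : ℤ) := Finset.sum_le_sum fun k _ => hf _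
  have h2 : ∑ _k ∈ Finset.range (advances p π s), (1 : ℤ) = advances p π s := by simp
  have h3 : (advances p π s : ℤ) ≤ s := by exact_mod_cast advances_le p π s
  linarith

lemma fin2_cases (j : Fin 2) : j = 0 ∨ j = 1 := by
  fin_cases j <;> simp

/-- The starting site of a type. -/
def start (z : Site d) (j : Fin 2) : Site d := if j = 0 then 0 else z

section two
variable {p : Fin 2 → ℝ} {tie : ℕ → Site d → Fin 2} {z : Site d} {ω : Config d}

lemma arrives_le (f : Site d →+ ℤ) (hf : ∀ e, f (vec e) ≤ 1) {σ : Site d → Option (ℕ × Fin 2)}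
    {n : ℕ} (hσ : ∀ y t j, σ y = some (t, j) → t ≤ n ∧ f y ≤ f (start z j) + t) {j : Fin 2}
    {y : Site d} (h : Arrives p ω σ (n + 1) j y) : f y ≤ f (start z j) + (n + 1 : ℕ) := by
  obtain ⟨x, t, i, h1, h2, h3⟩ := h
  obtain ⟨h4, h5⟩ := hσ x t j h1
  have h6 := map_traj_le f hf (p j) x ((ω x).2 i) (n + 1 - t)
  rw [h3] at h6
  have h7 : ((n + 1 - t : ℕ) : ℤ) = (n + 1 : ℕ) - t := by
    rw [Nat.cast_sub (by omega)]
  rw [h7] at h6
  linarith

lemma twoType_bound (f : Site d →+ ℤ) (hf : ∀ e, f (vec e) ≤ 1) (n : ℕ) :
    ∀ y t j, twoType p tie z ω n y = some (t, j) → t ≤ n ∧ f y ≤ f (start z j) + t := by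
  induction n with
  | zero =>
    intro y t j h
    simp only [twoType] at h
    split_ifs at h with h1 h2
    · simp only [Option.some.injEq, Prod.mk.injEq] at h
      obtain ⟨rfl, rfl⟩ := h
      simp [start, h1]
    · simp only [Option.some.injEq, Prod.mk.injEq] at h
      obtain ⟨rfl, rfl⟩ := h
      simp [start, h2]
  | succ n ih =>
    intro y t j h
    simp only [twoType] at h
    split at h
    · rename_i s hs
      rw [h] at hs
      obtain ⟨h1, h2⟩ := ih y t j hs
      exact ⟨by omega, h2⟩
    · split_ifs at h with h1 h2 h3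
      · simp only [Option.some.injEq, Prod.mk.injEq] at h
        obtain ⟨rfl, rfl⟩ := h
        refine ⟨le_rfl, ?_⟩
        have h3 : ∀ j : Fin 2, Arrives p ω (twoType p tie z ω n) (n + 1) j y := by
          intro j
          fin_cases j
          · exact h1
          · exact h2
        exact arrives_le f hf ih (h3 _)
      · simp only [Option.some.injEq, Prod.mk.injEq] at h
        obtain ⟨rfl, rfl⟩ := h
        exact ⟨le_rfl, arrives_le f hf ih h1⟩
      · simp only [Option.some.injEq, Prod.mk.injEq] at h
        obtain ⟨rfl, rfl⟩ := h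
        exact ⟨le_rfl, arrives_le f hf ih h3⟩

/-- A nearest-neighbour path of open sites in a direction in which type `j` has a head start is
followed at full speed by type `j`. -/
lemma twoType_fullSpeed (f : Site d →+ ℤ) (hf : ∀ e, f (vec e) ≤ 1) {j : Fin 2}
    (hj : ∀ j', j' ≠ j → f (start z j') < f (start z j)) {x : ℕ → Site d} (hx0 : x 0 = start z j)
    (hx : ∀ k, f (x k) = f (start z j) + k)
    (hopen : ∀ k, ∃ i < (ω (x k)).1, traj (p j) (x k) ((ω (x k)).2 i) 1 = x (k + 1)) (k : ℕ) :
    twoType p tie z ω k (x k) = some (k, j) := by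
  induction k with
  | zero =>
    have hz : start z 0 ≠ start z 1 := by
      intro hh
      rcases fin2_cases j with rfl | rfl
      · have := hj 1 (by decide)
        rw [hh] at this
        exact lt_irrefl _ this
      · have := hj 0 (by decide)
        rw [hh] at this
        exact lt_irrefl _ this
    simp only [start, if_true, one_ne_zero, if_false] at hz
    rw [hx0]
    simp only [twoType, start]
    rcases fin2_cases j with rfl | rfl
    · simp
    · simp [hz.symm]
  | succ k ih =>
    have hnone : twoType p tie z ω k (x (k + 1)) = none := by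
      rw [Option.eq_none_iff_forall_not_mem]
      rintro ⟨t, j'⟩ hmem
      obtain ⟨h1, h2⟩ := twoType_bound f hf k _ _ _ hmem
      rw [hx (k + 1)] at h2
      have h3 : f (start z j') ≤ f (start z j) := by
        by_cases h : j' = j
        · rw [h]
        · exact (hj j' h).le
      push_cast at h2
      have : (t : ℤ) ≤ k := by exact_mod_cast h1
      linarith
    have harr : Arrives p ω (twoType p tie z ω k) (k + 1) j (x (k + 1)) := by
      obtain ⟨i, hi, hi'⟩ := hopen k
      refine ⟨x k, k, i, ih, hi, ?_⟩
      rw [Nat.add_sub_cancel_left]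
      exact hi'
    have hnarr : ∀ j', j' ≠ j → ¬ Arrives p ω (twoType p tie z ω k) (k + 1) j' (x (k + 1)) := by
      intro j' hj' h
      have h1 := arrives_le f hf (twoType_bound f hf k) h
      rw [hx (k + 1)] at h1
      have := hj j' hj'
      linarith
    simp only [twoType, hnone]
    rcases fin2_cases j with rfl | rfl
    · rw [if_pos harr, if_neg (hnarr 1 (by decide))]
    · rw [if_neg (hnarr 0 (by decide)), if_pos harr]

lemma activatesInfinitely_of_fullSpeed (f : Site d →+ ℤ) (hf : ∀ e, f (vec e) ≤ 1) {j : Fin 2}
    (hj : ∀ j', j' ≠ j → f (start z j') < f (start z j)) {x : ℕ → Site d} (hx0 : x 0 = start z j)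
    (hx : ∀ k, f (x k) = f (start z j) + k)
    (hopen : ∀ k, ∃ i < (ω (x k)).1, traj (p j) (x k) ((ω (x k)).2 i) 1 = x (k + 1)) :
    ActivatesInfinitely p tie z j ω := by
  choose i hi hi' using hopen
  unfold ActivatesInfinitely
  refine Set.infinite_of_injective_forall_mem (f := fun k : ℕ => (x k, i k)) ?_ ?_
  · intro k k' hkk
    simp only [Prod.mk.injEq] at hkk
    have h1 := hx k
    rw [hkk.1, hx k'] at h1
    have : (k' : ℤ) = k := by linarith
    exact_mod_cast this.symm
  · intro k
    exact ⟨hi k, k, k, twoType_fullSpeed f hf hj hx0 hx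
      (fun k => ⟨i k, hi k, hi' k⟩) k⟩

end two

section one
variable {p : ℝ} {ω : Config d}

lemma oneType_bound (f : Site d →+ ℤ) (hf : ∀ e, f (vec e) ≤ 1) (n : ℕ) :
    ∀ y t, oneType p ω n y = some t → t ≤ n ∧ f y ≤ t := by
  induction n with
  | zero =>
    intro y t h
    simp only [oneType] at h
    split_ifs at h with h1
    simp only [Option.some.injEq] at h
    subst h
    simp [h1]
  | succ n ih =>
    intro y t h
    simp only [oneType] at h
    split at h
    · rename_i s hs
      rw [h] at hs
      obtain ⟨h1, h2⟩ := ih y t hs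
      exact ⟨by omega, h2⟩
    · split_ifs at h with h1
      simp only [Option.some.injEq] at h
      subst h
      refine ⟨le_rfl, ?_⟩
      obtain ⟨x, t, i, h1, h2, h3⟩ := h1
      obtain ⟨h4, h5⟩ := ih x t h1
      have h6 := map_traj_le f hf p x ((ω x).2 i) (n + 1 - t)
      rw [h3] at h6
      have h7 : ((n + 1 - t : ℕ) : ℤ) = (n + 1 : ℕ) - t := by
        rw [Nat.cast_sub (by omega)]
      rw [h7] at h6
      linarith

lemma oneType_mono {n : ℕ} {y : Site d} {t : ℕ} (h : oneType p ω n y = some t) :
    oneType p ω (n + 1) y = some t := by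
  simp only [oneType, h]

lemma oneType_mono_le {n m : ℕ} (hnm : n ≤ m) {y : Site d} {t : ℕ} (h : oneType p ω n y = some t) :
    oneType p ω m y = some t := by
  induction m, hnm using Nat.le_induction with
  | base => exact h
  | succ m _ ih => exact oneType_mono ih

/-- If `y` is discovered at time `t`, then it is already recorded at time `t`. -/
lemma oneType_time {n : ℕ} {y : Site d} {t : ℕ} (h : oneType p ω n y = some t) :
    oneType p ω t y = some t := by
  induction n with
  | zero =>
    have h' := h
    simp only [oneType] at h'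
    split_ifs at h' with h1
    simp only [Option.some.injEq] at h'
    subst h'
    exact h
  | succ n ih =>
    by_cases hn : ∃ s, oneType p ω n y = some s
    · obtain ⟨s, hs⟩ := hn
      have := oneType_mono hs
      rw [h] at this
      simp only [Option.some.injEq] at this
      subst this
      exact ih hs
    · have hnone : oneType p ω n y = none := by
        rw [Option.eq_none_iff_forall_not_mem]
        intro s hs
        exact hn ⟨s, hs⟩
      have h' := h
      simp only [oneType, hnone] at h'
      split_ifs at h' with h1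
      simp only [Option.some.injEq] at h'
      subst h'
      exact h

/-- The discovery time is unique. -/
lemma oneType_unique {n m : ℕ} {y : Site d} {t s : ℕ} (h : oneType p ω n y = some t)
    (h' : oneType p ω m y = some s) : t = s := by
  have h1 := oneType_mono_le (le_max_left n m) h
  have h2 := oneType_mono_le (le_max_right n m) h'
  rw [h1] at h2
  simpa using h2

/-- Every discovered site other than the origin is discovered by a particle of a site that was
discovered earlier. -/
lemma oneType_parent {n : ℕ} {y : Site d} {t : ℕ} (h : oneType p ω n y = some t) :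
    (y = 0 ∧ t = 0) ∨ ∃ x s i, s < t ∧ x ≠ y ∧ oneType p ω s x = some s ∧ i < (ω x).1 ∧
      traj p x ((ω x).2 i) (t - s) = y := by
  have h0 := oneType_time h
  cases t with
  | zero =>
    left
    simp only [oneType] at h0
    split_ifs at h0 with h1
    exact ⟨h1, rfl⟩
  | succ t =>
    right
    have hnone : oneType p ω t y = none := by
      rw [Option.eq_none_iff_forall_not_mem]
      intro s hs
      have h1 := (oneType_bound (0 : Site d →+ ℤ) (by simp) t y s hs).1
      have h2 := oneType_unique h0 hs
      omega
    have h0' := h0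
    simp only [oneType, hnone] at h0'
    split_ifs at h0' with h1
    obtain ⟨x, s, i, h2, h3, h4⟩ := h1
    have h5 := (oneType_bound (0 : Site d →+ ℤ) (by simp) t x s h2).1
    refine ⟨x, s, i, by omega, ?_, oneType_time h2, h3, h4⟩
    rintro rfl
    rw [hnone] at h2
    simp at h2

/-- A nearest-neighbour path of open sites in a direction of full speed is followed at full speed. -/
lemma oneType_fullSpeed (f : Site d →+ ℤ) (hf : ∀ e, f (vec e) ≤ 1) {x : ℕ → Site d}
    (hx0 : x 0 = 0) (hx : ∀ k, f (x k) = k)
    (hopen : ∀ k, ∃ i < (ω (x k)).1, traj p (x k) ((ω (x k)).2 i) 1 = x (k + 1)) (k : ℕ) :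
    oneType p ω k (x k) = some k := by
  induction k with
  | zero => simp [oneType, hx0]
  | succ k ih =>
    have hnone : oneType p ω k (x (k + 1)) = none := by
      rw [Option.eq_none_iff_forall_not_mem]
      intro t hmem
      obtain ⟨h1, h2⟩ := oneType_bound f hf k _ _ hmem
      rw [hx (k + 1)] at h2
      push_cast at h2
      have : (t : ℤ) ≤ k := by exact_mod_cast h1
      linarith
    simp only [oneType, hnone]
    rw [if_pos]
    obtain ⟨i, hi, hi'⟩ := hopen k
    refine ⟨x k, k, i, ih, hi, ?_⟩
    rw [Nat.add_sub_cancel_left]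
    exact hi'

end one

end Pool.Agent.Helper96.Frog
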