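import Pool.Agent.Helper96.FrogQuad
import Pool.Agent.Helper96.FrogGF

open MeasureTheory ProbabilityTheory Set
open scoped ENNReal

namespace Pool.Agent.Helper96.Frog

variable {d : ℕ}

/-- One link of a lineage: some particle of `v.1`, activated at time `v.2`, is at the different
site `v'.1` at time `v'.2`. -/
def linTr (p : ℝ) (v v' : Site d × ℕ) : Set (Config d) :=
  {ω | ω v.1 ∈ {b : Block d | (v.2 < v'.2 ∧ v.1 ≠ v'.1) ∧
    ∃ i < b.1, traj p v.1 (b.2 i) (v'.2 - v.2) = v'.1}}

/-- The target: discovered at time `t` beyond the level `L`. -/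
def linB (i0 : Fin d) (L : ℤ) (t : ℕ) : Set (Site d × ℕ) := {v | v.2 = t ∧ L ≤ v.1 i0}

lemma lineage_mem (i0 : Fin d) (L : ℤ) {p : ℝ} {ω : Config d} {t : ℕ} {y : Site d}
    (hy : oneType p ω t y = some t) (hL : L ≤ y i0) :
    ∃ N, ω ∈ chainEv (linTr p) Prod.fst (linB i0 L t) N (0, 0) ∅ := by
  have key : ∀ (s : ℕ) (y : Site d), oneType p ω s y = some s →
      (∃ N, ∀ F : Set (Site d), (∀ f ∈ F, ∃ r < s, oneType p ω r f = some r) →
        ω ∈ chainEv (linTr p) Prod.fst (linB i0 L t) N (y, s) F) →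
      ∃ N, ω ∈ chainEv (linTr p) Prod.fst (linB i0 L t) N (0, 0) ∅ := by
    intro s
    induction s using Nat.strong_induction_on with
    | _ s ih =>
      intro y hy hN
      obtain ⟨N, hN⟩ := hN
      rcases oneType_parent hy with ⟨rfl, rfl⟩ | ⟨x, r, i, hrs, hxy, hx, hi, htr⟩
      · exact ⟨N, hN ∅ (by simp)⟩
      · refine ih r hrs x hx ⟨N + 1, fun F hF => ?_⟩
        refine Or.inr ⟨?_, (y, s), ⟨⟨hrs, hxy⟩, i, hi, htr⟩, ?_⟩
        · intro hxF
          obtain ⟨r', hr', hx'⟩ := hF x hxF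
          have := oneType_unique hx hx'
          omega
        · refine hN _ ?_
          intro f hf
          rcases hf with rfl | hf
          · exact ⟨r, hrs, hx⟩
          · obtain ⟨r', hr', hf'⟩ := hF f hf
            exact ⟨r', by omega, hf'⟩
  exact key t y hy ⟨0, fun F _ => ⟨rfl, hL⟩⟩

/-- The supersolution for lineages. -/
noncomputable def linH (i0 : Fin d) (L : ℤ) (t : ℕ) (a r : ℝ≥0∞) (v : Site d × ℕ) : ℝ≥0∞ :=
  a ^ (L - t + v.2 - v.1 i0) * r ^ ((v.2 : ℤ) - t)

lemma linH_shift (i0 : Fin d) (L : ℤ) (t : ℕ) {a r : ℝ≥0∞} (ha0 : a ≠ 0) (hat : a ≠ ⊤)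
    (hr0 : r ≠ 0) (hrt : r ≠ ⊤) (x y : Site d) (s k : ℕ) :
    linH i0 L t a r (y, s + k) = linH i0 L t a r (x, s) * (r ^ k * a ^ ((k : ℤ) - (y i0 - x i0))) := by
  unfold linH
  have h1 : L - (t : ℤ) + ((s + k : ℕ) : ℤ) - y i0 =
      (L - t + s - x i0) + ((k : ℤ) - (y i0 - x i0)) := by
    push_cast
    ring
  have h2 : (((s + k : ℕ) : ℤ) - (t : ℤ)) = ((s : ℤ) - t) + k := by
    push_cast
    ring
  simp only
  rw [h1, h2, ENNReal.zpow_add ha0 hat, ENNReal.zpow_add hr0 hrt, zpow_natCast]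
  ring

lemma law_linTr_le [NeZero d] (m : ℕ) (p : ℝ) (x y : Site d) (s k : ℕ) :
    law d (PMF.pure m) (linTr p (x, s) (y, s + k)) ≤
      m * particleLaw d {π | traj p x π k = y} := by
  have := isProb_particle (d := d)
  have hS : MeasurableSet {π : Particle d | traj p x π k = y} :=
    measurable_traj p x k (MeasurableSet.singleton y)
  have hsub : linTr p (x, s) (y, s + k) ⊆
      {ω | ω x ∈ {b : Block d | ∀ i < b.1, b.2 i ∈ {π : Particle d | traj p x π k = y}ᶜ}ᶜ} := by
    rintro ω ⟨-, i, hi, h⟩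
    simp only [mem_ofPred_eq, mem_compl_iff, not_forall, not_not]
    refine ⟨i, hi, ?_⟩
    simpa using h
  refine (measure_mono hsub).trans ?_
  have hT := measurableSet_blockForall hS.compl
  rw [law_eval _ x hT.compl]
  have hp := isProb_block (d := d) (PMF.pure m)
  rw [prob_compl_eq_one_sub hT, blockLaw_forall m hS.compl, prob_compl_eq_one_sub hS]
  set q := particleLaw d {π : Particle d | traj p x π k = y}
  have hq : q ≤ 1 := prob_le_one
  rw [tsub_le_iff_right]
  -- Bernoulli's inequality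
  have hb : ∀ n : ℕ, (1 : ℝ≥0∞) ≤ n * q + (1 - q) ^ n := by
    intro n
    induction n with
    | zero => simp
    | succ n ih =>
      have h1 : (1 : ℝ≥0∞) - q ≤ 1 := tsub_le_self
      calc (1 : ℝ≥0∞) = (1 - q) + q := (tsub_add_cancel_of_le hq).symm
        _ = (1 - q) * 1 + q := by rw [mul_one]
        _ ≤ (1 - q) * (n * q + (1 - q) ^ n) + q := by gcongr
        _ = (1 - q) * (n * q) + (1 - q) ^ (n + 1) + q := by ring
        _ ≤ 1 * (n * q) + (1 - q) ^ (n + 1) + q := by gcongr
        _ = ((n + 1 : ℕ) : ℝ≥0∞) * q + (1 - q) ^ (n + 1) := by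
            push_cast
            ring
  exact hb m

lemma law_linTr_dir [NeZero d] (m : ℕ) {p : ℝ} (hp0 : 0 ≤ p) (hp1 : p ≤ 1) (x : Site d) (s : ℕ)
    (e : Dir d) :
    law d (PMF.pure m) (linTr p (x, s) (x + vec e, s + 1)) ≤
      1 - ENNReal.ofReal (1 - p / (2 * d)) ^ m := by
  have := isProb_law (d := d) (PMF.pure m)
  have hsub : linTr p (x, s) (x + vec e, s + 1) ⊆ (closedDir p x e)ᶜ := by
    rintro ω ⟨-, i, hi, h⟩ hcl
    simp only [Nat.add_sub_cancel_left] at h
    exact hcl i hi ((traj_one_iff p x _ e).1 h)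
  refine (measure_mono hsub).trans ?_
  have hm : MeasurableSet (closedDir p x e) := by
    have h1 := measurableSet_blockForall (measurableSet_firstStep p e).compl
    exact measurable_pi_apply x h1
  rw [prob_compl_eq_one_sub hm, law_closedDir m hp0 hp1]

lemma linTr_subset_dir (p : ℝ) (x y : Site d) (s : ℕ) (h : ∀ e, y ≠ x + vec e) :
    linTr p (x, s) (y, s + 1) = ∅ := by
  ext ω
  simp only [mem_empty_iff_false, iff_false]
  rintro ⟨⟨-, hne⟩, i, hi, h'⟩
  simp only [Nat.add_sub_cancel_left] at h' hne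
  rcases traj_one_cases p x ((ω x).2 i) with h1 | ⟨e, h1⟩
  · exact hne (h1.symm.trans h')
  · exact h e (h'.symm.trans h1)

/-- The contribution of the links of duration one. -/
lemma sum_one [NeZero d] (i0 : Fin d) (m : ℕ) {p : ℝ} (hp0 : 0 ≤ p) (hp1 : p ≤ 1) (L : ℤ) (t : ℕ)
    {a r : ℝ≥0∞} (ha0 : a ≠ 0) (ha1 : a ≤ 1) (hr0 : r ≠ 0) (hrt : r ≠ ⊤) (x : Site d) (s : ℕ) :
    ∑' y, law d (PMF.pure m) (linTr p (x, s) (y, s + 1)) * linH i0 L t a r (y, s + 1) ≤
      linH i0 L t a r (x, s) *
        (r * ((1 - ENNReal.ofReal (1 - p / (2 * d)) ^ m) + 2 * d * a)) := by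
  classical
  have := isProb_law (d := d) (PMF.pure m)
  have hat : a ≠ ⊤ := (ha1.trans_lt ENNReal.one_lt_top).ne
  have h1 : ∀ y, law d (PMF.pure m) (linTr p (x, s) (y, s + 1)) * linH i0 L t a r (y, s + 1) ≤
      ∑ e : Dir d, if y = x + vec e then
        law d (PMF.pure m) (linTr p (x, s) (y, s + 1)) * linH i0 L t a r (y, s + 1) else 0 := by
    intro y
    by_cases hy : ∃ e, y = x + vec e
    · obtain ⟨e, he⟩ := hy
      refine le_trans ?_ (Finset.single_le_sum (f := fun e : Dir d => if y = x + vec e then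
        law d (PMF.pure m) (linTr p (x, s) (y, s + 1)) * linH i0 L t a r (y, s + 1) else 0)
        (fun _ _ => zero_le) (Finset.mem_univ e))
      rw [if_pos he]
    · push Not at hy
      rw [linTr_subset_dir p x y s hy]
      simp
  refine (ENNReal.tsum_le_tsum h1).trans ?_
  rw [Summable.tsum_finsetSum (fun _ _ => ENNReal.summable)]
  have h2 : ∀ e : Dir d, ∑' y, (if y = x + vec e then
        law d (PMF.pure m) (linTr p (x, s) (y, s + 1)) * linH i0 L t a r (y, s + 1) else 0) ≤
      linH i0 L t a r (x, s) * (r * ((if e = (i0, true) then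
        (1 - ENNReal.ofReal (1 - p / (2 * d)) ^ m) else 0) + a)) := by
    intro e
    rw [tsum_eq_single (x + vec e) (fun y hy => if_neg hy), if_pos rfl,
      linH_shift i0 L t ha0 hat hr0 hrt x, pow_one]
    have h3 : ((1 : ℕ) : ℤ) - ((x + vec e) i0 - x i0) = 1 - vec e i0 := by
      simp
    rw [h3]
    by_cases he : e = (i0, true)
    · rw [if_pos he]
      have h4 : vec e i0 = 1 := by simp [vec, he]
      rw [h4, sub_self, zpow_zero, mul_one, mul_comm, mul_assoc]
      refine mul_le_mul' le_rfl (mul_le_mul' le_rfl ?_)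
      exact (law_linTr_dir m hp0 hp1 x s e).trans le_self_add
    · rw [if_neg he, zero_add]
      have h5 : a ^ (1 - vec e i0) ≤ a := by
        have h6 : vec e i0 = 0 ∨ vec e i0 = -1 := by
          obtain ⟨j, b⟩ := e
          simp only [vec]
          by_cases hj : i0 = j
          · subst hj
            cases b
            · simp
            · exact absurd rfl he
          · simp [hj]
        rcases h6 with h6 | h6 <;> rw [h6]
        · simp
        · have h7 : (1 - (-1) : ℤ) = ((2 : ℕ) : ℤ) := by norm_num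
          rw [h7, zpow_natCast, pow_two]
          exact mul_le_of_le_one_left zero_le ha1
      calc law d (PMF.pure m) (linTr p (x, s) (x + vec e, s + 1)) *
            (linH i0 L t a r (x, s) * (r * a ^ (1 - vec e i0)))
          ≤ 1 * (linH i0 L t a r (x, s) * (r * a)) := by
            gcongr
            exact prob_le_one
        _ = linH i0 L t a r (x, s) * (r * a) := one_mul _
  refine (Finset.sum_le_sum fun e _ => h2 e).trans ?_
  rw [← Finset.mul_sum, ← Finset.mul_sum, Finset.sum_add_distrib, Finset.sum_ite_eq']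
  simp only [Finset.mem_univ, if_true, Finset.sum_const, Finset.card_univ, Fintype.card_prod,
    Fintype.card_fin, Fintype.card_bool, nsmul_eq_mul]
  refine mul_le_mul' le_rfl (mul_le_mul' le_rfl (add_le_add le_rfl ?_))
  push_cast
  rw [mul_comm (d : ℝ≥0∞) 2]

/-- The contribution of the links of duration `k`. -/
lemma sum_many [NeZero d] (i0 : Fin d) (m : ℕ) {p : ℝ} (hp0 : 0 ≤ p) (hp1 : p ≤ 1) (L : ℤ) (t : ℕ)
    {a r : ℝ≥0∞} (ha0 : a ≠ 0) (hat : a ≠ ⊤) (hr0 : r ≠ 0) (hrt : r ≠ ⊤) (x : Site d) (s k : ℕ) :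
    ∑' y, law d (PMF.pure m) (linTr p (x, s) (y, s + k)) * linH i0 L t a r (y, s + k) ≤
      linH i0 L t a r (x, s) *
        (m * (r * (ENNReal.ofReal p * meanW i0 a + ENNReal.ofReal (1 - p) * a)) ^ k) := by
  have h1 : ∀ y, law d (PMF.pure m) (linTr p (x, s) (y, s + k)) * linH i0 L t a r (y, s + k) ≤
      (linH i0 L t a r (x, s) * (m * r ^ k)) *
        (a ^ ((k : ℤ) - (y i0 - x i0)) * (particleLaw d).map (fun π => traj p x π k) {y}) := by
    intro y
    rw [linH_shift i0 L t ha0 hat hr0 hrt x, Measure.map_apply (measurable_traj p x k)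
      (MeasurableSet.singleton y)]
    calc law d (PMF.pure m) (linTr p (x, s) (y, s + k)) *
          (linH i0 L t a r (x, s) * (r ^ k * a ^ ((k : ℤ) - (y i0 - x i0))))
        ≤ (m * particleLaw d {π | traj p x π k = y}) *
          (linH i0 L t a r (x, s) * (r ^ k * a ^ ((k : ℤ) - (y i0 - x i0)))) := by
          gcongr
          exact law_linTr_le m p x y s k
      _ = _ := by
          have : (fun π => traj p x π k) ⁻¹' {y} = {π : Particle d | traj p x π k = y} := rfl
          rw [this]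
          ring
  refine (ENNReal.tsum_le_tsum h1).trans ?_
  rw [ENNReal.tsum_mul_left, ← lintegral_countable' (fun y : Site d =>
    a ^ ((k : ℤ) - (y i0 - x i0))), lintegral_map (measurable_of_countable _)
    (measurable_traj p x k), lintegral_traj i0 hp0 hp1 ha0 hat x k, mul_pow]
  refine le_of_eq ?_
  ring

lemma tsum_split (F : ℕ → ℝ≥0∞) (s : ℕ) (hF : ∀ s' ≤ s, F s' = 0) :
    ∑' s', F s' = F (s + 1) + ∑' k, F (s + (k + 2)) := by
  have h1 : ∑' s', F s' = ∑ i ∈ Finset.range (s + 1), F i + ∑' i, F (i + (s + 1)) :=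
    (Summable.sum_add_tsum_nat_add' (f := F) (k := s + 1) ENNReal.summable).symm
  have h2 : ∑ i ∈ Finset.range (s + 1), F i = 0 :=
    Finset.sum_eq_zero fun i hi => hF i (by
      rw [Finset.mem_range] at hi
      omega)
  have h3 : ∑' i, F (i + (s + 1)) = F (0 + (s + 1)) + ∑' i, F (i + 1 + (s + 1)) :=
    tsum_eq_zero_add' (f := fun i => F (i + (s + 1))) ENNReal.summable
  rw [h1, h2, h3, zero_add, zero_add]
  congr 2
  funext k
  congr 1
  ring

/-- The probability that some site beyond the level `L` is discovered at time `t`. -/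
theorem lineage_bound [NeZero d] (i0 : Fin d) (m : ℕ) {p : ℝ} (hp0 : 0 ≤ p) (hp1 : p ≤ 1)
    {a r : ℝ≥0∞} (ha0 : a ≠ 0) (ha1 : a ≤ 1) (hr0 : r ≠ 0) (hrt : r ≠ ⊤)
    (hΦ : r * ((1 - ENNReal.ofReal (1 - p / (2 * d)) ^ m) + 2 * d * a) +
      ∑' k : ℕ, m * (r * (ENNReal.ofReal p * meanW i0 a + ENNReal.ofReal (1 - p) * a)) ^ (k + 2)
        ≤ 1) (L : ℤ) (t : ℕ) :
    law d (PMF.pure m) {ω | ∃ y, oneType p ω t y = some t ∧ L ≤ y i0} ≤
      a ^ (L - t) * r ^ (-(t : ℤ)) := by
  have := isProb_law (d := d) (PMF.pure m)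
  have hat : a ≠ ⊤ := (ha1.trans_lt ENNReal.one_lt_top).ne
  have hmeas : ∀ v v' : Site d × ℕ, MeasurableSet[MeasurableSpace.comap
      (fun ω : Config d => ω v.1) inferInstance] (linTr p v v') := by
    intro v v'
    refine ⟨_, ?_, rfl⟩
    by_cases hc : v.2 < v'.2 ∧ v.1 ≠ v'.1
    · have h1 : {b : Block d | (v.2 < v'.2 ∧ v.1 ≠ v'.1) ∧
          ∃ i < b.1, traj p v.1 (b.2 i) (v'.2 - v.2) = v'.1} =
          {b : Block d | ∀ i < b.1,
            b.2 i ∈ {π : Particle d | traj p v.1 π (v'.2 - v.2) = v'.1}ᶜ}ᶜ := by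
        ext b
        constructor
        · rintro ⟨-, i, hi, h⟩ hall
          exact hall i hi h
        · intro h
          simp only [mem_compl_iff, mem_ofPred_eq, not_forall, not_not] at h
          obtain ⟨i, hi, h⟩ := h
          exact ⟨hc, i, hi, h⟩
      rw [h1]
      exact (measurableSet_blockForall
        (measurable_traj p v.1 (v'.2 - v.2) (MeasurableSet.singleton v'.1)).compl).compl
    · have h1 : {b : Block d | (v.2 < v'.2 ∧ v.1 ≠ v'.1) ∧
          ∃ i < b.1, traj p v.1 (b.2 i) (v'.2 - v.2) = v'.1} = ∅ := by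
        ext b
        simp only [mem_empty_iff_false, iff_false]
        rintro ⟨h, -⟩
        exact hc h
      rw [h1]
      exact MeasurableSet.empty
  have hbound : ∀ N, law d (PMF.pure m)
      (chainEv (linTr p) Prod.fst (linB i0 L t) N ((0 : Site d), 0) ∅) ≤
      linH i0 L t a r (0, 0) := by
    intro N
    refine chainEv_bound (m := fun x : Site d =>
      MeasurableSpace.comap (fun ω : Config d => ω x) inferInstance) ?_ (iIndep_blocks _)
      hmeas (linH i0 L t a r) ?_ ?_ N (0, 0) ∅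
    · intro x
      exact (measurable_pi_apply x).comap_le
    · rintro ⟨x, s⟩ ⟨h1, h2⟩
      simp only at h1 h2
      subst h1
      simp only [linH, sub_self, zpow_zero, mul_one]
      have h3 : L - (s : ℤ) + s - x i0 = -((x i0 - L).toNat : ℤ) := by
        rw [Int.toNat_of_nonneg (by linarith)]
        ring
      rw [h3, ENNReal.zpow_neg, zpow_natCast, ENNReal.one_le_inv]
      exact pow_le_one₀ zero_le ha1
    · rintro ⟨x, s⟩ -
      rw [ENNReal.tsum_prod', ENNReal.tsum_comm]
      have hF0 : ∀ s' ≤ s, ∑' y, law d (PMF.pure m) (linTr p (x, s) (y, s')) *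
          linH i0 L t a r (y, s') = 0 := by
        intro s' hs'
        rw [ENNReal.tsum_eq_zero]
        intro y
        have : linTr p (x, s) (y, s') = ∅ := by
          ext ω
          simp only [mem_empty_iff_false, iff_false]
          rintro ⟨⟨h1, -⟩, -⟩
          simp only at h1
          omega
        rw [this]
        simp
      have h1 := sum_one i0 m hp0 hp1 L t ha0 ha1 hr0 hrt x s
      have h2 := fun k : ℕ => sum_many i0 m hp0 hp1 L t ha0 hat hr0 hrt x s (k + 2)
      rw [tsum_split (fun s' => ∑' y, law d (PMF.pure m) (linTr p (x, s) (y, s')) *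
          linH i0 L t a r (y, s')) s hF0]
      refine (add_le_add h1 (ENNReal.tsum_le_tsum h2)).trans ?_
      rw [ENNReal.tsum_mul_left, ← mul_add]
      exact mul_le_of_le_one_right zero_le hΦ
  have hsub : {ω : Config d | ∃ y, oneType p ω t y = some t ∧ L ≤ y i0} ⊆
      ⋃ N, chainEv (linTr p) Prod.fst (linB i0 L t) N ((0 : Site d), 0) ∅ := by
    rintro ω ⟨y, hy, hL⟩
    exact mem_iUnion.2 (lineage_mem i0 L hy hL)
  have hmono : Monotone fun N => chainEv (linTr p) Prod.fst (linB i0 L t) N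
      ((0 : Site d), 0) (∅ : Set (Site d)) :=
    monotone_nat_of_le_succ fun N => chainEv_mono N _ _
  refine (measure_mono hsub).trans ?_
  rw [hmono.measure_iUnion]
  refine (iSup_le hbound).trans (le_of_eq ?_)
  simp [linH]

end Pool.Agent.Helper96.Frog
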