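import Pool.Agent.Helper96.FrogLin
import Pool.Agent.Helper96.FrogCoex

open MeasureTheory ProbabilityTheory Set Filter
open scoped ENNReal Topology

namespace Pool.Agent.Helper96.Frog

variable {d : ℕ}

/-- The mean weight of a step is at most `1/(2d) + a`. -/
lemma meanW_le [NeZero d] (i0 : Fin d) {a : ℝ≥0∞} (ha1 : a ≤ 1) :
    meanW i0 a ≤ ENNReal.ofReal (1 / (2 * d)) + a := by
  classical
  have := isProb_dir (d := d)
  have h1 : ∀ e : Dir d, stepW i0 a e ≤ ({(i0, true)} : Set (Dir d)).indicator (fun _ => 1) e + a := by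
    intro e
    unfold stepW
    by_cases he : e = (i0, true)
    · have h4 : vec e i0 = 1 := by simp [vec, he]
      rw [h4, sub_self, zpow_zero, Set.indicator_of_mem (by simpa using he)]
      exact le_self_add
    · rw [Set.indicator_of_notMem (by simpa using he), zero_add]
      have h6 : vec e i0 = 0 ∨ vec e i0 = -1 := by
        obtain ⟨j, b⟩ := e
        simp only [vec]
        by_cases hj : i0 = j
        · subst hj
          cases b
          · simp
          · exact absurd rfl he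
        · simp [hj]
      rcases h6 with h6 | h6 <;> rw [h6]
      · simp
      · have h7 : (1 - (-1) : ℤ) = ((2 : ℕ) : ℤ) := by norm_num
        rw [h7, zpow_natCast, pow_two]
        exact mul_le_of_le_one_left zero_le ha1
  calc meanW i0 a ≤ ∫⁻ e, (({(i0, true)} : Set (Dir d)).indicator (fun _ => 1) e + a)
        ∂(uniformOn (Set.univ : Set (Dir d))) := lintegral_mono h1
    _ = ENNReal.ofReal (1 / (2 * d)) + a := by
        rw [lintegral_add_right _ measurable_const, lintegral_const, measure_univ, mul_one,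
          lintegral_indicator (MeasurableSet.singleton _), lintegral_const, one_mul,
          Measure.restrict_apply MeasurableSet.univ, Set.univ_inter, uniformOn_univ]
        congr 1
        simp only [Measure.count_singleton, Fintype.card_prod, Fintype.card_fin,
          Fintype.card_bool]
        have hd : (0 : ℝ) < d := by exact_mod_cast Nat.pos_of_ne_zero (NeZero.ne d)
        rw [one_div (2 * (d : ℝ)), ENNReal.ofReal_inv_of_pos (by positivity),
          ENNReal.div_eq_inv_mul, mul_one]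
        congr 1
        rw [mul_comm (2 : ℝ), ENNReal.ofReal_mul (by positivity)]
        simp

lemma pow_lower {k : ℕ} (hk : 1 ≤ k) : (2⁻¹ : ℝ) ^ 12 ≤ (1 - 1 / (2 * k)) ^ (12 * k) := by
  have hk' : (1 : ℝ) ≤ k := by exact_mod_cast hk
  have h1 : (2⁻¹ : ℝ) ≤ (1 - 1 / (2 * k)) ^ k := by
    have h2 := one_add_mul_le_pow (a := -(1 / (2 * (k : ℝ)))) (by
      have : 1 / (2 * (k : ℝ)) ≤ 1 := by
        rw [div_le_one (by positivity)]
        linarith
      linarith) k
    have h3 : (1 : ℝ) + k * -(1 / (2 * k)) = 2⁻¹ := by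
      field_simp
      norm_num
    rw [h3] at h2
    simpa [sub_eq_add_neg] using h2
  calc (2⁻¹ : ℝ) ^ 12 ≤ ((1 - 1 / (2 * (k : ℝ))) ^ k) ^ 12 := by gcongr
    _ = (1 - 1 / (2 * (k : ℝ))) ^ (12 * k) := by rw [← pow_mul, mul_comm k]

lemma pow_upper {k : ℕ} (hk : 1 ≤ k) : (1 - 1 / (2 * k) : ℝ) ^ (12 * k) ≤ 2⁻¹ ^ 6 := by
  have hk' : (1 : ℝ) ≤ k := by exact_mod_cast hk
  have hx : 0 ≤ 1 / (2 * (k : ℝ)) := by positivity
  have hx1 : 1 / (2 * (k : ℝ)) ≤ 1 := by
    rw [div_le_one (by positivity)]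
    linarith
  have h1 : (1 - 1 / (2 * k) : ℝ) ^ (2 * k) ≤ 2⁻¹ := by
    have h2 := one_add_mul_le_pow (a := 1 / (2 * (k : ℝ))) (by linarith) (2 * k)
    have h3 : (1 : ℝ) + (2 * k : ℕ) * (1 / (2 * k)) = 2 := by
      push_cast
      field_simp
      norm_num
    rw [h3] at h2
    have h4 : (1 - 1 / (2 * k) : ℝ) ^ (2 * k) * (1 + 1 / (2 * k)) ^ (2 * k) ≤ 1 := by
      rw [← mul_pow]
      refine pow_le_one₀ (mul_nonneg (by linarith) (by linarith)) ?_
      nlinarith
    have h5 : 0 ≤ (1 - 1 / (2 * k) : ℝ) ^ (2 * k) := pow_nonneg (by linarith) _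
    nlinarith
  calc (1 - 1 / (2 * k) : ℝ) ^ (12 * k) = ((1 - 1 / (2 * k)) ^ (2 * k)) ^ 6 := by
        rw [← pow_mul]
        ring_nf
    _ ≤ 2⁻¹ ^ 6 := by
        gcongr

/-- The base of the exponential weights. -/
noncomputable def sBase : ℝ := 1 + 2⁻¹ ^ 14

/-- All requirements on the parameters hold for large `D`. -/
lemma exists_D (d : ℕ) (hd : 1 ≤ d) : ∃ D : ℕ, 1 ≤ D ∧ d ≤ D ^ 2 ∧
    2 ^ 14 * (8 * d + 1024) ≤ 12 * D ^ 2 ∧
    (12 * (D : ℝ) ^ 2) ≤ sBase ^ (2 * D) ∧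
    6 * (1 - 1 / (2 * (d : ℝ))) ^ (12 * D ^ 2) ≤ 6⁻¹ ^ (4 * D) := by
  have hd' : (1 : ℝ) ≤ d := by exact_mod_cast hd
  set θ : ℝ := 1 - 1 / (2 * (d : ℝ)) with hθ
  have h2d : 0 < 1 / (2 * (d : ℝ)) := by positivity
  have h2d1 : 1 / (2 * (d : ℝ)) ≤ 1 := by
    rw [div_le_one (by positivity)]
    linarith
  have hθ0 : 0 ≤ θ := by rw [hθ]; linarith
  have hθ1 : θ < 1 := by rw [hθ]; linarith
  have hs : 1 < sBase := by
    unfold sBase
    norm_num
  have e1 : ∀ᶠ D : ℕ in atTop, (12 * (D : ℝ) ^ 2) ≤ sBase ^ (2 * D) := by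
    have h1 : 1 < sBase ^ 2 := one_lt_pow₀ hs (by norm_num)
    have h2 := tendsto_pow_const_div_const_pow_of_one_lt 2 h1
    have h3 : ∀ᶠ D : ℕ in atTop, (D : ℝ) ^ 2 / (sBase ^ 2) ^ D < 1 / 12 :=
      h2.eventually_lt_const (by norm_num)
    filter_upwards [h3] with D hD
    have h4 : 0 < (sBase ^ 2) ^ D := by positivity
    rw [div_lt_iff₀ h4] at hD
    rw [pow_mul]
    linarith
  have e2 : ∀ᶠ D : ℕ in atTop, θ ^ (12 * D) < 6⁻¹ ^ 5 := by
    have h1 : Tendsto (fun D : ℕ => (θ ^ 12) ^ D) atTop (𝓝 0) :=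
      tendsto_pow_atTop_nhds_zero_of_lt_one (by positivity) (pow_lt_one₀ hθ0 hθ1 (by norm_num))
    filter_upwards [h1.eventually_lt_const (show (0 : ℝ) < 6⁻¹ ^ 5 by norm_num)] with D hD
    rw [pow_mul]
    exact hD
  obtain ⟨D, h1, h2, h3, h4⟩ := (e1.and (e2.and ((eventually_ge_atTop d).and
    (eventually_ge_atTop (2 ^ 14 * (8 * d + 1024)))))).exists
  have hD1 : 1 ≤ D := hd.trans h3
  have hDD : D ≤ D ^ 2 := by nlinarith
  refine ⟨D, hD1, h3.trans hDD, ?_, h1, ?_⟩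
  · omega
  · calc 6 * θ ^ (12 * D ^ 2) = 6 * (θ ^ (12 * D)) ^ D := by
          rw [← pow_mul]
          congr 2
          ring
      _ ≤ 6 * (6⁻¹ ^ 5) ^ D := by gcongr
      _ = 6 * (6⁻¹ ^ (4 * D) * 6⁻¹ ^ D) := by
          rw [← pow_mul, ← pow_add]
          congr 2
          ring
      _ = 6⁻¹ ^ (4 * D) * (6 * 6⁻¹ ^ D) := by ring
      _ ≤ 6⁻¹ ^ (4 * D) * 1 := by
          have : (6 : ℝ) * 6⁻¹ ^ D ≤ 1 := by
            calc (6 : ℝ) * 6⁻¹ ^ D ≤ 6 * 6⁻¹ ^ 1 := by
                  gcongr 6 * ?_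
                  exact pow_le_pow_of_le_one (by norm_num) (by norm_num) hD1
              _ = 1 := by norm_num
          gcongr
      _ = 6⁻¹ ^ (4 * D) := mul_one _

lemma phi_le [NeZero d] (i0 : Fin d) {k : ℕ} (hk : 1 ≤ k) (hdk : d ≤ k)
    (hm : 2 ^ 14 * (8 * d + 1024) ≤ 12 * k) :
    ENNReal.ofReal (sBase ^ 2) * ((1 - ENNReal.ofReal (1 - (d / k : ℝ) / (2 * d)) ^ (12 * k)) +
        2 * d * ENNReal.ofReal (1 / (12 * k))) +
      ∑' j : ℕ, ((12 * k : ℕ) : ℝ≥0∞) * (ENNReal.ofReal (sBase ^ 2) *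
        (ENNReal.ofReal (d / k : ℝ) * meanW i0 (ENNReal.ofReal (1 / (12 * k))) +
          ENNReal.ofReal (1 - (d / k : ℝ)) * ENNReal.ofReal (1 / (12 * k)))) ^ (j + 2) ≤ 1 := by
  have hk' : (1 : ℝ) ≤ k := by exact_mod_cast hk
  have hd : (1 : ℝ) ≤ d := by exact_mod_cast Nat.one_le_iff_ne_zero.2 (NeZero.ne d)
  have hdk' : (d : ℝ) ≤ k := by exact_mod_cast hdk
  have hm' : (2 : ℝ) ^ 14 * (8 * d + 1024) ≤ 12 * k := by exact_mod_cast hm
  have hm0 : (0 : ℝ) < 12 * k := by positivity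
  have hs2 : sBase ^ 2 ≤ 2 := by
    unfold sBase
    norm_num
  have hs0 : 0 ≤ sBase ^ 2 := by positivity
  have hp1 : (d / k : ℝ) ≤ 1 := by
    rw [div_le_one (by positivity)]
    exact hdk'
  have hp0 : 0 ≤ (d / k : ℝ) := by positivity
  have hpd : (d / k : ℝ) / (2 * d) = 1 / (2 * k) := by
    field_simp
  -- first term
  have hρ : 1 - ENNReal.ofReal (1 - (d / k : ℝ) / (2 * d)) ^ (12 * k) ≤
      ENNReal.ofReal (1 - 2⁻¹ ^ 12) := by
    have h0 : ENNReal.ofReal (2⁻¹ ^ 12) ≤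
        ENNReal.ofReal (1 - (d / k : ℝ) / (2 * d)) ^ (12 * k) := by
      rw [hpd, ← ENNReal.ofReal_pow (by
        have : 1 / (2 * (k : ℝ)) ≤ 1 := by
          rw [div_le_one (by positivity)]
          linarith
        linarith)]
      exact ENNReal.ofReal_le_ofReal (pow_lower hk)
    refine (tsub_le_tsub_left h0 1).trans (le_of_eq ?_)
    rw [ENNReal.ofReal_sub _ (by positivity), ENNReal.ofReal_one]
  have h1 : ENNReal.ofReal (sBase ^ 2) *
      ((1 - ENNReal.ofReal (1 - (d / k : ℝ) / (2 * d)) ^ (12 * k)) +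
        2 * d * ENNReal.ofReal (1 / (12 * k))) ≤
      ENNReal.ofReal (sBase ^ 2 * (1 - 2⁻¹ ^ 12) + 4 * d / (12 * k)) := by
    have h2 : (2 : ℝ≥0∞) * d * ENNReal.ofReal (1 / (12 * k)) =
        ENNReal.ofReal (2 * d * (1 / (12 * k))) := by
      rw [ENNReal.ofReal_mul (by positivity), ENNReal.ofReal_mul (by positivity)]
      simp
    rw [h2]
    calc ENNReal.ofReal (sBase ^ 2) *
          ((1 - ENNReal.ofReal (1 - (d / k : ℝ) / (2 * d)) ^ (12 * k)) +
            ENNReal.ofReal (2 * d * (1 / (12 * k))))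
        ≤ ENNReal.ofReal (sBase ^ 2) *
          (ENNReal.ofReal (1 - 2⁻¹ ^ 12) + ENNReal.ofReal (2 * d * (1 / (12 * k)))) := by gcongr
      _ = ENNReal.ofReal (sBase ^ 2 * (1 - 2⁻¹ ^ 12) + sBase ^ 2 * (2 * d * (1 / (12 * k)))) := by
          rw [← ENNReal.ofReal_add (by norm_num) (by positivity), ← ENNReal.ofReal_mul hs0, mul_add]
      _ ≤ ENNReal.ofReal (sBase ^ 2 * (1 - 2⁻¹ ^ 12) + 4 * d / (12 * k)) := by
          refine ENNReal.ofReal_le_ofReal ?_
          have h3 : (4 : ℝ) * d / (12 * k) = 2 * (2 * d * (1 / (12 * k))) := by ring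
          rw [h3]
          gcongr
  -- the geometric series
  set X : ℝ≥0∞ := ENNReal.ofReal (sBase ^ 2) *
        (ENNReal.ofReal (d / k : ℝ) * meanW i0 (ENNReal.ofReal (1 / (12 * k))) +
          ENNReal.ofReal (1 - (d / k : ℝ)) * ENNReal.ofReal (1 / (12 * k))) with hX
  have ha1 : ENNReal.ofReal (1 / (12 * (k : ℝ))) ≤ 1 := by
    rw [← ENNReal.ofReal_one]
    refine ENNReal.ofReal_le_ofReal ?_
    rw [div_le_one hm0]
    linarith
  have hXle : X ≤ ENNReal.ofReal (16 / (12 * k)) := by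
    have h4 : ENNReal.ofReal (d / k : ℝ) * meanW i0 (ENNReal.ofReal (1 / (12 * k))) ≤
        ENNReal.ofReal (d / k * (1 / (2 * d) + 1 / (12 * k))) := by
      rw [ENNReal.ofReal_mul hp0, ENNReal.ofReal_add (by positivity) (by positivity)]
      exact mul_le_mul' le_rfl (meanW_le i0 ha1)
    have h5 : ENNReal.ofReal (1 - (d / k : ℝ)) * ENNReal.ofReal (1 / (12 * k)) ≤
        ENNReal.ofReal (1 / (12 * k)) := by
      refine mul_le_of_le_one_left zero_le ?_
      rw [← ENNReal.ofReal_one]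
      exact ENNReal.ofReal_le_ofReal (by linarith)
    calc X ≤ ENNReal.ofReal 2 * (ENNReal.ofReal (d / k * (1 / (2 * d) + 1 / (12 * k))) +
          ENNReal.ofReal (1 / (12 * k))) := by
          rw [hX]
          gcongr
      _ = ENNReal.ofReal (2 * (d / k * (1 / (2 * d) + 1 / (12 * k)) + 1 / (12 * k))) := by
          rw [← ENNReal.ofReal_add (by positivity) (by positivity), ← ENNReal.ofReal_mul (by norm_num)]
      _ ≤ ENNReal.ofReal (16 / (12 * k)) := by
          refine ENNReal.ofReal_le_ofReal ?_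
          have h6 : (d / k : ℝ) * (1 / (2 * d)) = 6 / (12 * k) := by
            field_simp
            norm_num
          have h7 : (d / k : ℝ) * (1 / (12 * k)) ≤ 1 * (1 / (12 * k)) := by gcongr
          have h8 : (16 : ℝ) / (12 * k) = 2 * (6 / (12 * k) + 1 * (1 / (12 * k)) + 1 / (12 * k)) := by
            field_simp
            norm_num
          rw [h8, mul_add (d / k : ℝ), h6]
          gcongr
  have h16 : (16 : ℝ) / (12 * k) ≤ 1 / 2 := by
    rw [div_le_iff₀ hm0]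
    nlinarith
  have hX2 : X ≤ ENNReal.ofReal (1 / 2) := hXle.trans (ENNReal.ofReal_le_ofReal h16)
  have h9 : ∑' j : ℕ, ((12 * k : ℕ) : ℝ≥0∞) * X ^ (j + 2) ≤ ENNReal.ofReal (512 / (12 * k)) := by
    calc ∑' j : ℕ, ((12 * k : ℕ) : ℝ≥0∞) * X ^ (j + 2)
        ≤ ∑' j : ℕ, ENNReal.ofReal (12 * k) *
          (ENNReal.ofReal (16 / (12 * k)) ^ 2 * ENNReal.ofReal (1 / 2) ^ j) := by
          refine ENNReal.tsum_le_tsum fun j => ?_
          have h10 : ((12 * k : ℕ) : ℝ≥0∞) = ENNReal.ofReal (12 * k) := by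
            rw [← ENNReal.ofReal_natCast]
            push_cast
            rfl
          rw [h10, pow_add, mul_comm (X ^ j)]
          gcongr
      _ = ENNReal.ofReal (12 * k) * (ENNReal.ofReal (16 / (12 * k)) ^ 2 * 2) := by
          rw [ENNReal.tsum_mul_left, ENNReal.tsum_mul_left, ENNReal.tsum_geometric]
          congr 3
          rw [← ENNReal.ofReal_one, ← ENNReal.ofReal_sub _ (by norm_num),
            ← ENNReal.ofReal_inv_of_pos (by norm_num)]
          norm_num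
      _ = ENNReal.ofReal (512 / (12 * k)) := by
          rw [← ENNReal.ofReal_pow (by positivity), show (2 : ℝ≥0∞) = ENNReal.ofReal 2 by simp,
            ← ENNReal.ofReal_mul (by positivity), ← ENNReal.ofReal_mul (by positivity)]
          congr 1
          field_simp
          norm_num
  refine (add_le_add h1 h9).trans ?_
  have hs3 : sBase ^ 2 * (1 - 2⁻¹ ^ 12) ≤ 1 - 2⁻¹ ^ 13 := by
    unfold sBase
    norm_num
  have hs4 : 0 ≤ sBase ^ 2 * (1 - 2⁻¹ ^ 12) := mul_nonneg hs0 (by norm_num)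
  rw [← ENNReal.ofReal_add (by positivity) (by positivity), ← ENNReal.ofReal_one]
  refine ENNReal.ofReal_le_ofReal ?_
  have h11 : 4 * (d : ℝ) / (12 * k) + 512 / (12 * k) ≤ 2⁻¹ ^ 13 := by
    rw [← add_div, div_le_iff₀ hm0]
    have : (2⁻¹ : ℝ) ^ 13 * ((2 : ℝ) ^ 14 * (8 * d + 1024)) ≤ 2⁻¹ ^ 13 * (12 * k) := by gcongr
    have h12 : (2⁻¹ : ℝ) ^ 13 * ((2 : ℝ) ^ 14 * (8 * d + 1024)) = 2 * (8 * d + 1024) := by
      rw [← mul_assoc]
      norm_num
    rw [h12] at this
    linarith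
  linarith

end Pool.Agent.Helper96.Frog
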