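import Pool.Agent.Helper96.Chain

open MeasureTheory ProbabilityTheory Set
open scoped ENNReal

namespace Pool.Agent.Helper96

section gen
variable {Ω ι V : Type*} {A : V → V → Set Ω} {site : V → ι} {B : Set V}

/-- `B` can be reached from `v` in at most `N` transitions. -/
def reachN {Ω V : Type*} (A : V → V → Set Ω) (B : Set V) : ℕ → V → Set Ω
  | 0, v => {_ω | v ∈ B}
  | N + 1, v => {ω | v ∈ B ∨ ∃ v', ω ∈ A v v' ∧ ω ∈ reachN A B N v'}

lemma reachN_mono : ∀ (N : ℕ) (v : V), reachN A B N v ⊆ reachN A B (N + 1) v := by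
  intro N
  induction N with
  | zero =>
    intro v ω hω
    exact Or.inl hω
  | succ N ih =>
    intro v ω hω
    rcases hω with h | ⟨v', h2, h3⟩
    · exact Or.inl h
    · exact Or.inr ⟨v', h2, ih _ h3⟩

lemma reachN_chainEv (hinj : Function.Injective site) (ω : Ω) : ∀ (N : ℕ) (v : V) (F : Set ι),
    ω ∈ reachN A B N v → (∀ u, site u ∈ F → ω ∉ reachN A B N u) →
      ω ∈ chainEv A site B N v F := by
  intro N
  induction N with
  | zero =>
    intro v F h _
    exact h
  | succ N ih =>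
    intro v F h hF
    by_cases hN : ω ∈ reachN A B N v
    · exact chainEv_mono N v F (ih v F hN fun u hu hh => hF u hu (reachN_mono N u hh))
    · rcases h with h | ⟨v', h2, h3⟩
      · exact Or.inl h
      · refine Or.inr ⟨fun hv => hF v hv (Or.inr ⟨v', h2, h3⟩), v', h2, ?_⟩
        refine ih v' _ h3 fun u hu => ?_
        rcases hu with hu | hu
        · rw [hinj hu]
          exact hN
        · exact fun hh => hF u hu (reachN_mono N u hh)

end gen

section perc
variable {Ω ι : Type*} {Cl : ℕ × ℕ → Set Ω}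

/-- Backward exploration steps. -/
def percTr {Ω : Type*} (Cl : ℕ × ℕ → Set Ω) (v v' : ℕ × ℕ) : Set Ω :=
  {ω | (v.1 = v'.1 + 1 ∧ v'.2 = v.2) ∨ v' = (v.1 + 1, v.2 + 1) ∨
    ((v'.1 = v.1 ∧ v.2 = v'.2 + 1) ∧ ω ∈ Cl v)}

/-- The ground. -/
def ground : Set (ℕ × ℕ) := {v | v.2 = 0}

/-- The set of `ω` for which the vertex is reached from the ground. -/
def Reach {Ω : Type*} (Cl : ℕ × ℕ → Set Ω) (v : ℕ × ℕ) : Set Ω :=
  ⋃ N, reachN (percTr Cl) ground N v

lemma reach_ground (ω : Ω) (n : ℕ) : ω ∈ Reach Cl (n, 0) :=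
  mem_iUnion.2 ⟨0, rfl⟩

lemma reach_of_tr {ω : Ω} {v v' : ℕ × ℕ} (h : ω ∈ percTr Cl v v') (h' : ω ∈ Reach Cl v') :
    ω ∈ Reach Cl v := by
  obtain ⟨N, hN⟩ := mem_iUnion.1 h'
  exact mem_iUnion.2 ⟨N + 1, Or.inr ⟨v', h, hN⟩⟩

lemma reach_right {ω : Ω} {n c : ℕ} (h : ω ∈ Reach Cl (n, c)) : ω ∈ Reach Cl (n + 1, c) :=
  reach_of_tr (v := (n + 1, c)) (v' := (n, c)) (Or.inl ⟨rfl, rfl⟩) h

lemma reach_down {ω : Ω} {n c : ℕ} (h : ω ∈ Reach Cl (n + 1, c + 1)) : ω ∈ Reach Cl (n, c) :=
  reach_of_tr (v := (n, c)) (v' := (n + 1, c + 1)) (Or.inr (Or.inl rfl)) h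

lemma reach_diag {ω : Ω} {n c : ℕ} (hc : ω ∈ Cl (n, c + 1)) (h : ω ∈ Reach Cl (n, c)) :
    ω ∈ Reach Cl (n, c + 1) :=
  reach_of_tr (v := (n, c + 1)) (v' := (n, c)) (Or.inr (Or.inr ⟨⟨rfl, rfl⟩, hc⟩)) h

lemma reach_pred {ω : Ω} {n c : ℕ} (h : ω ∈ Reach Cl (n, c + 1)) : ω ∈ Reach Cl (n, c) :=
  reach_down (reach_right h)

lemma reach_le {ω : Ω} {n c c' : ℕ} (hc : c' ≤ c) (h : ω ∈ Reach Cl (n, c)) :
    ω ∈ Reach Cl (n, c') := by
  induction c, hc using Nat.le_induction with
  | base => exact h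
  | succ c _ ih => exact ih (reach_pred h)

/-- The height of the lowest path. -/
lemma exists_path {ω : Ω} (h0 : ω ∉ Reach Cl (0, 1)) :
    ∃ b : ℕ → ℕ, b 0 = 0 ∧ (∀ n, b (n + 1) = b n ∨ b (n + 1) = b n + 1) ∧
      (∀ n, ω ∉ Cl (n, b n + 1)) ∧
      (∀ n β, ω ∉ Reach Cl (n, β + 1) → b n ≤ β) := by
  classical
  let good : ℕ → ℕ → Prop := fun n b => ω ∈ Reach Cl (n, b) ∧ ω ∉ Reach Cl (n, b + 1)
  have hstep : ∀ n b, good n b → good (n + 1) b ∨ good (n + 1) (b + 1) := by
    rintro n b ⟨h1, h2⟩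
    by_cases h3 : ω ∈ Reach Cl (n + 1, b + 1)
    · exact Or.inr ⟨h3, fun h4 => h2 (reach_down h4)⟩
    · exact Or.inl ⟨reach_right h1, h3⟩
  let b : ℕ → ℕ := fun n => Nat.rec 0 (fun n b => if good (n + 1) b then b else b + 1) n
  have hb0 : b 0 = 0 := rfl
  have hbs : ∀ n, b (n + 1) = if good (n + 1) (b n) then b n else b n + 1 := fun n => rfl
  have hgood : ∀ n, good n (b n) := by
    intro n
    induction n with
    | zero => exact ⟨reach_ground ω 0, h0⟩
    | succ n ih =>
      rw [hbs]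
      split_ifs with h
      · exact h
      · exact (hstep n (b n) ih).resolve_left h
  refine ⟨b, hb0, fun n => ?_, fun n hcl => ?_, fun n β hβ => ?_⟩
  · rw [hbs]
    split_ifs
    · exact Or.inl rfl
    · exact Or.inr rfl
  · exact (hgood n).2 (reach_diag hcl (hgood n).1)
  · by_contra hlt
    push Not at hlt
    exact hβ (reach_le hlt (hgood n).1)

end perc

section bound
variable {Ω ι : Type*} {Cl : ℕ × ℕ → Set Ω}
variable [m0 : MeasurableSpace Ω] {m : ι → MeasurableSpace Ω}

lemma reach_bound {μ : Measure Ω} [IsProbabilityMeasure μ]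
    (h_le : ∀ i, m i ≤ m0) (h_indep : iIndep m μ) (site : ℕ × ℕ → ι)
    (hinj : Function.Injective site)
    (hCl : ∀ v, MeasurableSet[m (site v)] (Cl v)) (q : ℝ≥0∞) (hq : 27 * q ≤ 1)
    (hμ : ∀ v, μ (Cl v) ≤ q) (n c : ℕ) :
    μ (Reach Cl (n, c)) ≤ 3 ^ n * (3 * q) ^ c := by
  classical
  have hmeas : ∀ v v', MeasurableSet[m (site v)] (percTr Cl v v') := by
    intro v v'
    have : percTr Cl v v' = {_ω | (v.1 = v'.1 + 1 ∧ v'.2 = v.2)} ∪
        ({_ω | v' = (v.1 + 1, v.2 + 1)} ∪ ({_ω | v'.1 = v.1 ∧ v.2 = v'.2 + 1} ∩ Cl v)) := by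
      ext ω
      simp [percTr]
    rw [this]
    exact (MeasurableSet.const _).union ((MeasurableSet.const _).union
      ((MeasurableSet.const _).inter (hCl v)))
  have key : ∀ (N : ℕ), μ (reachN (percTr Cl) ground N (n, c)) ≤ 3 ^ n * (3 * q) ^ c := by
    intro N
    refine (measure_mono fun ω hω => reachN_chainEv hinj ω N (n, c) ∅ hω (by simp)).trans ?_
    refine chainEv_bound h_le h_indep hmeas (fun v => 3 ^ v.1 * (3 * q) ^ v.2) ?_ ?_ N (n, c) ∅
    · rintro ⟨n, c⟩ hv
      have hc : c = 0 := hv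
      subst hc
      simp only [pow_zero, mul_one]
      exact one_le_pow₀ (by norm_num)
    · rintro ⟨n, c⟩ hv
      have hc : c ≠ 0 := hv
      obtain ⟨c, rfl⟩ := Nat.exists_eq_succ_of_ne_zero hc
      -- bound the sum by three terms
      have hsum : ∑' v', μ (percTr Cl (n, c + 1) v') * (3 ^ v'.1 * (3 * q) ^ v'.2) ≤
          (if n = 0 then 0 else 3 ^ (n - 1) * (3 * q) ^ (c + 1)) +
          (3 ^ (n + 1) * (3 * q) ^ (c + 2) + q * (3 ^ n * (3 * q) ^ c)) := by
        have h1 : ∀ v' : ℕ × ℕ, μ (percTr Cl (n, c + 1) v') * (3 ^ v'.1 * (3 * q) ^ v'.2) ≤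
            (if n = v'.1 + 1 ∧ v'.2 = c + 1 then 3 ^ (n - 1) * (3 * q) ^ (c + 1) else 0) +
            ((if v' = (n + 1, c + 2) then 3 ^ (n + 1) * (3 * q) ^ (c + 2) else 0) +
            (if v' = (n, c) then q * (3 ^ n * (3 * q) ^ c) else 0)) := by
          rintro ⟨a, b⟩
          by_cases hA : n = a + 1 ∧ b = c + 1
          · obtain ⟨rfl, rfl⟩ := hA
            simp only [and_self, if_true, Nat.add_sub_cancel]
            exact (mul_le_of_le_one_left zero_le prob_le_one).trans le_self_add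
          · by_cases hB : (a, b) = (n + 1, c + 2)
            · rw [if_neg hA, if_pos hB]
              obtain ⟨rfl, rfl⟩ := Prod.mk.inj hB
              simp only [zero_add]
              exact (mul_le_of_le_one_left zero_le prob_le_one).trans le_self_add
            · by_cases hC : (a, b) = (n, c)
              · rw [if_neg hA, if_neg hB, if_pos hC]
                obtain ⟨rfl, rfl⟩ := Prod.mk.inj hC
                simp only [zero_add]
                refine mul_le_mul' ?_ le_rfl
                refine (measure_mono ?_).trans (hμ (a, b + 1))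
                rintro ω (h | h | h)
                · simp at h
                · simp at h
                · exact h.2
              · rw [if_neg hA, if_neg hB, if_neg hC]
                have : percTr Cl (n, c + 1) (a, b) = ∅ := by
                  ext ω
                  simp only [percTr, mem_ofPred_eq, mem_empty_iff_false, iff_false, not_or]
                  refine ⟨hA, hB, ?_⟩
                  rintro ⟨⟨h1, h2⟩, -⟩
                  exact hC (by rw [h1]; simp at h2; rw [h2])
                rw [this]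
                simp
        refine (ENNReal.tsum_le_tsum h1).trans ?_
        rw [ENNReal.tsum_add, ENNReal.tsum_add]
        refine add_le_add ?_ (add_le_add ?_ ?_)
        · by_cases hn : n = 0
          · subst hn
            simp
          · obtain ⟨n, rfl⟩ := Nat.exists_eq_succ_of_ne_zero hn
            rw [if_neg hn]
            rw [tsum_eq_single (n, c + 1)]
            · simp
            · rintro ⟨a, b⟩ hab
              rw [if_neg]
              rintro ⟨h1, h2⟩
              simp only [Nat.succ_eq_add_one, add_left_inj] at h1 h2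
              exact hab (by rw [h1, h2])
        · rw [tsum_eq_single (n + 1, c + 2)]
          · simp
          · intro v' hv'
            rw [if_neg hv']
        · rw [tsum_eq_single (n, c)]
          · simp
          · intro v' hv'
            rw [if_neg hv']
      refine hsum.trans ?_
      simp only [Nat.succ_eq_add_one]
      have e2 : (3 : ℝ≥0∞) ^ (n + 1) * (3 * q) ^ (c + 2) =
          27 * q * (3 ^ n * (q * (3 * q) ^ c)) := by ring
      have e3 : q * (3 ^ n * (3 * q) ^ c) = 1 * (3 ^ n * (q * (3 * q) ^ c)) := by ring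
      have e4 : (3 : ℝ≥0∞) ^ n * (3 * q) ^ (c + 1) = 3 * (3 ^ n * (q * (3 * q) ^ c)) := by ring
      by_cases hn : n = 0
      · rw [if_pos hn, e2, e3, e4, zero_add, ← add_mul]
        refine mul_le_mul' ?_ le_rfl
        calc 27 * q + 1 ≤ 1 + 1 := add_le_add hq le_rfl
          _ ≤ 3 := by norm_num
      · rw [if_neg hn]
        obtain ⟨n, rfl⟩ := Nat.exists_eq_succ_of_ne_zero hn
        simp only [Nat.succ_eq_add_one, Nat.add_sub_cancel] at *
        have e5 : (3 : ℝ≥0∞) ^ n * (3 * q) ^ (c + 1) = 1 * (3 ^ (n + 1) * (q * (3 * q) ^ c)) := by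
          ring
        rw [e2, e3, e4, e5, ← add_mul, ← add_mul]
        refine mul_le_mul' ?_ le_rfl
        calc 1 + (27 * q + 1) ≤ 1 + (1 + 1) := add_le_add le_rfl (add_le_add hq le_rfl)
          _ = 3 := by norm_num
  have hmono : Monotone fun N => reachN (percTr Cl) ground N (n, c) :=
    monotone_nat_of_le_succ fun N => reachN_mono N (n, c)
  rw [Reach, hmono.measure_iUnion]
  exact iSup_le key

end bound

end Pool.Agent.Helper96
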