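import Pool.Agent.Helper96.FrogDet
import Pool.Agent.Helper96.Perc

open MeasureTheory ProbabilityTheory Set
open scoped ENNReal

namespace Pool.Agent.Helper96.Frog

variable {d : ℕ}

lemma isProb_dir [NeZero d] : IsProbabilityMeasure (uniformOn (Set.univ : Set (Dir d))) :=
  isProbabilityMeasure_uniformOn Set.finite_univ Set.univ_nonempty

lemma isProb_particle [NeZero d] : IsProbabilityMeasure (particleLaw d) := by
  have := isProb_dir (d := d)
  unfold particleLaw
  infer_instance

lemma isProb_block [NeZero d] (ν : PMF ℕ) : IsProbabilityMeasure (blockLaw d ν) := by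
  have := isProb_particle (d := d)
  unfold blockLaw
  infer_instance

lemma isProb_law [NeZero d] (ν : PMF ℕ) : IsProbabilityMeasure (law d ν) := by
  have := isProb_block (d := d) ν
  unfold law
  infer_instance

/-! ### Measurability -/

lemma measurable_advances (p : ℝ) (s : ℕ) : Measurable fun π : Particle d => advances p π s := by
  classical
  have : (fun π : Particle d => advances p π s) =
      fun π => ∑ k ∈ Finset.range s, if (π.2 k : ℝ) ≤ p then 1 else 0 := by
    funext π
    unfold advances
    rw [Finset.card_filter]
  rw [this]
  refine Finset.measurable_sum _ fun k _ => ?_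
  refine Measurable.ite ?_ measurable_const measurable_const
  exact measurableSet_le (by fun_prop) measurable_const

lemma measurable_traj (p : ℝ) (x : Site d) (s : ℕ) :
    Measurable fun π : Particle d => traj p x π s := by
  unfold traj
  have h1 : Measurable fun q : ℕ × Particle d => ∑ k ∈ Finset.range q.1, vec (q.2.1 k) := by
    refine measurable_from_prod_countable_right fun n => ?_
    have h2 : ∀ k, Measurable fun π : Particle d => vec (π.1 k) := fun k =>
      (measurable_of_countable vec).comp (by fun_prop)
    exact Finset.measurable_sum (Finset.range n) fun k _ => h2 k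
  exact (h1.comp ((measurable_advances p s).prodMk measurable_id)).const_add x

/-! ### One active time step -/

lemma advances_one (p : ℝ) (π : Particle d) :
    advances p π 1 = if (π.2 0 : ℝ) ≤ p then 1 else 0 := by
  classical
  unfold advances
  rw [Finset.card_filter, Finset.sum_range_one]

lemma vec_ne_zero (e : Dir d) : vec e ≠ 0 := by
  intro h
  have := congrFun h e.1
  simp only [vec, if_true, Pi.zero_apply] at this
  split_ifs at this; all_goals omega

lemma vec_injective : Function.Injective (vec : Dir d → Site d) := by
  rintro ⟨j, b⟩ ⟨j', b'⟩ h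
  have h1 := congrFun h j
  simp only [vec, if_true] at h1
  by_cases hj : j = j'
  · subst hj
    simp only [if_true] at h1
    cases b <;> cases b' <;> simp_all
  · rw [if_neg hj] at h1
    split_ifs at h1; all_goals omega

lemma traj_one_iff (p : ℝ) (x : Site d) (π : Particle d) (e : Dir d) :
    traj p x π 1 = x + vec e ↔ (π.2 0 : ℝ) ≤ p ∧ π.1 0 = e := by
  unfold traj
  rw [advances_one, add_right_inj]
  split_ifs with h
  · simp only [Finset.range_one, Finset.sum_singleton, h, true_and]
    exact vec_injective.eq_iff
  · simp only [Finset.range_zero, Finset.sum_empty, h, false_and, iff_false]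
    exact (vec_ne_zero e).symm

lemma traj_one_cases (p : ℝ) (x : Site d) (π : Particle d) :
    traj p x π 1 = x ∨ ∃ e, traj p x π 1 = x + vec e := by
  unfold traj
  rw [advances_one]
  split_ifs with h
  · exact Or.inr ⟨π.1 0, by simp⟩
  · exact Or.inl (by simp)

/-- The set of particle data for which the first active time step leads in direction `e`. -/
def firstStep (p : ℝ) (e : Dir d) : Set (Particle d) := {π | (π.2 0 : ℝ) ≤ p ∧ π.1 0 = e}

lemma measurableSet_firstStep (p : ℝ) (e : Dir d) : MeasurableSet (firstStep p e) := by
  have h0 : firstStep p e = {π : Particle d | (π.2 0 : ℝ) ≤ p} ∩ {π : Particle d | π.1 0 = e} :=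
    rfl
  rw [h0]
  refine MeasurableSet.inter ?_ ?_
  · exact measurableSet_le (by fun_prop) measurable_const
  · have h1 : Measurable fun π : Particle d => π.1 0 := by fun_prop
    exact h1 (MeasurableSet.singleton e)

lemma particleLaw_firstStep [NeZero d] {p : ℝ} (hp0 : 0 ≤ p) (hp1 : p ≤ 1) (e : Dir d) :
    particleLaw d (firstStep p e) = ENNReal.ofReal (p / (2 * d)) := by
  classical
  have := isProb_dir (d := d)
  have h1 : firstStep p e = (Set.pi (({0} : Finset ℕ) : Set ℕ) (fun _ => ({e} : Set (Dir d)))) ×ˢ
      (Set.pi (({0} : Finset ℕ) : Set ℕ) (fun _ => Set.Iic (⟨p, hp0, hp1⟩ : unitInterval))) := by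
    ext π
    simp only [firstStep, mem_ofPred_eq, Finset.coe_singleton, Set.singleton_pi, Set.mem_prod,
      Set.mem_preimage, Function.eval, Set.mem_singleton_iff, Set.mem_Iic]
    rw [and_comm, ← Subtype.coe_le_coe]
  rw [h1, particleLaw, Measure.prod_prod,
    Measure.infinitePi_pi _ (fun i _ => MeasurableSet.singleton e),
    Measure.infinitePi_pi _ (fun i _ => measurableSet_Iic)]
  simp only [Finset.prod_singleton, unitInterval.volume_Iic]
  rw [uniformOn_univ]
  simp only [Measure.count_singleton, Fintype.card_prod, Fintype.card_fin, Fintype.card_bool]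
  have hd : (0 : ℝ) < d := by exact_mod_cast Nat.pos_of_ne_zero (NeZero.ne d)
  rw [ENNReal.div_eq_inv_mul, mul_one, div_eq_inv_mul, ENNReal.ofReal_mul (by positivity),
    ENNReal.ofReal_inv_of_pos (by positivity)]
  congr 2
  rw [mul_comm (2 : ℝ), ENNReal.ofReal_mul (by positivity)]
  simp

/-! ### Blocks with a deterministic number of particles -/

lemma blockLaw_forall [NeZero d] (m : ℕ) {S : Set (Particle d)} (hS : MeasurableSet S) :
    blockLaw d (PMF.pure m) {b | ∀ i < b.1, b.2 i ∈ S} = (particleLaw d S) ^ m := by
  classical
  have := isProb_particle (d := d)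
  have h1 : MeasurableSet {b : Block d | ∀ i < b.1, b.2 i ∈ S} := by
    have : {b : Block d | ∀ i < b.1, b.2 i ∈ S} = ⋂ i : ℕ, ({b : Block d | b.1 ≤ i} ∪
        {b : Block d | b.2 i ∈ S}) := by
      ext b
      simp only [mem_ofPred_eq, mem_iInter, mem_union]
      constructor
      · intro h i
        by_cases hi : i < b.1
        · exact Or.inr (h i hi)
        · exact Or.inl (by omega)
      · intro h i hi
        rcases h i with h | h
        · omega
        · exact h
    rw [this]
    refine MeasurableSet.iInter fun i => MeasurableSet.union ?_ ?_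
    · exact measurableSet_le measurable_fst measurable_const
    · exact (measurable_pi_apply i).comp measurable_snd hS
  rw [blockLaw, PMF.toMeasure_pure, Measure.dirac_prod, Measure.map_apply (by fun_prop) h1]
  have h2 : (Prod.mk m ⁻¹' {b : Block d | ∀ i < b.1, b.2 i ∈ S}) =
      Set.pi ((Finset.range m : Finset ℕ) : Set ℕ) (fun _ => S) := by
    ext f
    simp
  rw [h2, Measure.infinitePi_pi _ (fun i _ => hS)]
  simp

lemma law_eval [NeZero d] (ν : PMF ℕ) (x : Site d) {T : Set (Block d)} (hT : MeasurableSet T) :
    law d ν {ω | ω x ∈ T} = blockLaw d ν T := by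
  have := isProb_block (d := d) ν
  have := (measurePreserving_eval_infinitePi (fun _ : Site d => blockLaw d ν) x).measure_preimage
    hT.nullMeasurableSet
  exact this

lemma iIndep_blocks [NeZero d] (ν : PMF ℕ) :
    iIndep (fun x : Site d => MeasurableSpace.comap (fun ω : Config d => ω x) inferInstance)
      (law d ν) := by
  have := isProb_block (d := d) ν
  have := iIndepFun_infinitePi (P := fun _ : Site d => blockLaw d ν)
    (X := fun _ => (id : Block d → Block d)) (fun _ => measurable_id)
  exact this

end Pool.Agent.Helper96.Frog
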