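import Pool.Agent.Helper96.FrogSpeed

open MeasureTheory ProbabilityTheory Set Filter
open scoped ENNReal Topology

namespace Pool.Agent.Helper96.Frog

variable {d : ℕ}

lemma ae_occupied [NeZero d] (m : ℕ) (x : Site d) :
    ∀ᵐ ω ∂(law d (PMF.pure m)), (ω x).1 = m := by
  have := isProb_particle (d := d)
  have hT : MeasurableSet {b : Block d | b.1 = m} := measurable_fst (MeasurableSet.singleton m)
  rw [ae_iff]
  have h1 : {ω : Config d | ¬ (ω x).1 = m} = {ω | ω x ∈ {b : Block d | b.1 = m}ᶜ} := rfl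
  rw [h1, law_eval _ x hT.compl]
  have h2 : {b : Block d | b.1 = m}ᶜ = ({m}ᶜ : Set ℕ) ×ˢ (Set.univ : Set (ℕ → Particle d)) := by
    ext b
    simp
  rw [h2, blockLaw, Measure.prod_prod, PMF.toMeasure_pure, Measure.dirac_apply' _
    (MeasurableSet.singleton m).compl]
  simp

/-- Different speeds force different shapes. -/
theorem shapes_ne [NeZero d] {m : ℕ} (hm : 1 ≤ m) {p q : ℝ} {i : Fin d} {c₁ c₂ : ℝ}
    (hc : c₂ < c₁)
    (h1 : 0 < law d (PMF.pure m) {ω | ∃ᶠ n : ℕ in atTop, ∃ x ∈ discovered p ω n,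
      c₁ * (n : ℝ) ≤ x i})
    (h2 : ∀ᵐ ω ∂(law d (PMF.pure m)), ∃ C : ℝ, ∀ n, ∀ x ∈ discovered q ω n,
      (x i : ℝ) ≤ c₂ * n + C)
    {A₁ A₂ : Set (Fin d → ℝ)} (hA₁ : IsShape (PMF.pure m) p A₁) (hA₂ : IsShape (PMF.pure m) q A₂) :
    A₁ ≠ A₂ := by
  have := isProb_law (d := d) (PMF.pure m)
  rintro rfl
  -- the shape of the slower type is contained in a half space
  have hle : ∀ a ∈ A₁, a i ≤ c₂ := by
    obtain ⟨ω, hω1, hω2, hω3⟩ := (h2.and (hA₂.2.2.and (ae_occupied m (0 : Site d)))).exists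
    obtain ⟨C, hC⟩ := hω1
    have hocc : 1 ≤ (ω 0).1 := by
      rw [hω3]
      exact hm
    have hsh := hω2 hocc
    intro a ha
    have key : ∀ ε : ℝ, 0 < ε → ε < 1 → (1 - ε) * a i ≤ c₂ := by
      intro ε hε0 hε1
      have h3 : ∀ᶠ n : ℕ in atTop, (1 - ε) * a i ≤ c₂ + (C + 1 / 2) / n := by
        filter_upwards [hsh ε hε0 hε1, eventually_gt_atTop 0] with n hn hn0
        obtain ⟨x, hx, hx2⟩ := hn.1 a ha
        have h4 := (hx2 i).2
        have h5 := hC n x hx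
        simp only [Pi.smul_apply, smul_eq_mul] at h4
        have hn0' : (0 : ℝ) < n := by exact_mod_cast hn0
        have h6 : n * ((1 - ε) * a i) ≤ n * (c₂ + (C + 1 / 2) / n) := by
          have h7 : (n : ℝ) * (c₂ + (C + 1 / 2) / n) = c₂ * n + (C + 1 / 2) := by
            field_simp
          rw [h7]
          linarith
        exact le_of_mul_le_mul_left h6 hn0'
      have h8 : Tendsto (fun n : ℕ => c₂ + (C + 1 / 2) / (n : ℝ)) atTop (𝓝 (c₂ + 0)) :=
        tendsto_const_nhds.add (tendsto_const_div_atTop_nhds_zero_nat _)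
      rw [add_zero] at h8
      exact ge_of_tendsto h8 h3
    have h9 : Tendsto (fun n : ℕ => (1 - 1 / ((n : ℝ) + 2)) * a i) atTop (𝓝 ((1 - 0) * a i)) := by
      refine Tendsto.mul_const _ (tendsto_const_nhds.sub ?_)
      have := (tendsto_add_atTop_iff_nat 2).2 (tendsto_one_div_atTop_nhds_zero_nat (𝕜 := ℝ))
      simpa using this
    rw [sub_zero, one_mul] at h9
    refine le_of_tendsto h9 (Eventually.of_forall fun n => ?_)
    refine key _ (by positivity) ?_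
    rw [div_lt_one (by positivity)]
    have : (0 : ℝ) ≤ n := Nat.cast_nonneg n
    linarith
  -- the shape of the faster type is not
  have hnull : ¬ ∀ᵐ ω ∂(law d (PMF.pure m)), ¬ ∃ᶠ n : ℕ in atTop, ∃ x ∈ discovered p ω n,
      c₁ * (n : ℝ) ≤ x i := by
    intro hh
    rw [ae_iff] at hh
    simp only [not_not] at hh
    exact h1.ne' hh
  have hex : ∃ ω : Config d, (∃ᶠ n : ℕ in atTop, ∃ x ∈ discovered p ω n, c₁ * (n : ℝ) ≤ x i) ∧
      (1 ≤ (ω 0).1 → ∀ ε : ℝ, 0 < ε → ε < 1 → ∀ᶠ n : ℕ in Filter.atTop,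
      (∀ a ∈ A₁, ((n : ℝ) * (1 - ε)) • a ∈ cubes (discovered p ω n)) ∧
      (∀ y ∈ cubes (discovered p ω n), ∃ a ∈ A₁, y = ((n : ℝ) * (1 + ε)) • a)) ∧
      (ω 0).1 = m := by
    by_contra hcon
    push Not at hcon
    refine hnull ?_
    filter_upwards [hA₁.2.2, ae_occupied m (0 : Site d)] with ω hω1 hω2 hω3
    exact hcon ω (by simpa using hω3) (by simpa using hω1) hω2
  obtain ⟨ω, hω1, hω2, hω3⟩ := hex
  have hocc : 1 ≤ (ω 0).1 := by
    rw [hω3]
    exact hm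
  -- choose `ε` with `(1 + ε) c₂ < c₁`
  have hεex : ∃ ε : ℝ, 0 < ε ∧ ε < 1 ∧ (1 + ε) * c₂ < c₁ := by
    have h3 : Tendsto (fun n : ℕ => (1 + 1 / ((n : ℝ) + 2)) * c₂) atTop (𝓝 ((1 + 0) * c₂)) := by
      refine Tendsto.mul_const _ (tendsto_const_nhds.add ?_)
      have := (tendsto_add_atTop_iff_nat 2).2 (tendsto_one_div_atTop_nhds_zero_nat (𝕜 := ℝ))
      simpa using this
    rw [add_zero, one_mul] at h3
    obtain ⟨n, hn⟩ := (h3.eventually_lt_const hc).exists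
    refine ⟨1 / ((n : ℝ) + 2), by positivity, ?_, hn⟩
    rw [div_lt_one (by positivity)]
    have : (0 : ℝ) ≤ n := Nat.cast_nonneg n
    linarith
  obtain ⟨ε, hε0, hε1, hε⟩ := hεex
  obtain ⟨n, ⟨x, hx, hx2⟩, hn, hn0⟩ := (hω1.and_eventually
    ((hω2 hocc ε hε0 hε1).and (eventually_gt_atTop 0))).exists
  obtain ⟨a, ha, hxa⟩ := hn.2 (fun j => (x j : ℝ)) ⟨x, hx, fun j => by simp⟩
  have h3 := congrFun hxa i
  simp only [Pi.smul_apply, smul_eq_mul] at h3
  have hn0' : (0 : ℝ) < n := by exact_mod_cast hn0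
  have h4 : (n : ℝ) * (1 + ε) * a i ≤ n * (1 + ε) * c₂ := by
    have := hle a ha
    gcongr
  have h5 : (n : ℝ) * (1 + ε) * c₂ < n * c₁ := by
    rw [mul_assoc]
    gcongr
  linarith

end Pool.Agent.Helper96.Frog
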