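import Pool.Agent.Helper96.FrogParam

open MeasureTheory ProbabilityTheory Set Filter
open scoped ENNReal Topology

namespace Pool.Agent.Helper96.Frog

variable {d : ℕ}

lemma eval_vec_le (i0 : Fin d) (e : Dir d) : Pi.evalAddMonoidHom (fun _ => ℤ) i0 (vec e) ≤ 1 := by
  show vec e i0 ≤ 1
  simp only [vec]
  split_ifs <;> norm_num

/-- Upper bound for the speed in direction `i0`. -/
theorem speed_upper [NeZero d] (i0 : Fin d) {D : ℕ} (hD : 1 ≤ D) (hdD : d ≤ D ^ 2)
    (hm : 2 ^ 14 * (8 * d + 1024) ≤ 12 * D ^ 2) (hs : (12 * (D : ℝ) ^ 2) ≤ sBase ^ (2 * D)) :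
    ∀ᵐ ω ∂(law d (PMF.pure (12 * D ^ 2))), ∃ C : ℝ, ∀ n, ∀ x ∈ discovered (d / (D ^ 2 : ℕ)) ω n,
      (x i0 : ℝ) ≤ (1 - 1 / (2 * D)) * n + C := by
  set k : ℕ := D ^ 2 with hk
  have hk1 : 1 ≤ k := Nat.one_le_pow _ _ hD
  have hk' : (1 : ℝ) ≤ k := by exact_mod_cast hk1
  have hd : (1 : ℝ) ≤ d := by exact_mod_cast Nat.one_le_iff_ne_zero.2 (NeZero.ne d)
  have hdk' : (d : ℝ) ≤ k := by exact_mod_cast hdD
  have hp1 : (d / k : ℝ) ≤ 1 := by
    rw [div_le_one (by positivity)]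
    exact hdk'
  have hp0 : 0 ≤ (d / k : ℝ) := by positivity
  have hm0 : (0 : ℝ) < 12 * k := by positivity
  have hs1 : 1 < sBase := by
    unfold sBase
    norm_num
  have hs0 : 0 < sBase := by linarith
  have hbound : ∀ t : ℕ, law d (PMF.pure (12 * k))
      {ω | ∃ y, oneType (d / k) ω t y = some t ∧ ((t : ℤ) - (t / (2 * D) : ℕ)) ≤ y i0} ≤
      ENNReal.ofReal sBase⁻¹ ^ t := by
    intro t
    have h1 := lineage_bound i0 (12 * k) hp0 hp1
      (a := ENNReal.ofReal (1 / (12 * k))) (r := ENNReal.ofReal (sBase ^ 2))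
      (by
        rw [Ne, ENNReal.ofReal_eq_zero, not_le]
        positivity)
      (by
        rw [← ENNReal.ofReal_one]
        refine ENNReal.ofReal_le_ofReal ?_
        rw [div_le_one hm0]
        linarith)
      (by
        rw [Ne, ENNReal.ofReal_eq_zero, not_le]
        positivity)
      ENNReal.ofReal_ne_top
      (phi_le i0 hk1 hdD hm) ((t : ℤ) - (t / (2 * D) : ℕ)) t
    refine h1.trans ?_
    have h2 : (t : ℤ) - (t / (2 * D) : ℕ) - t = -((t / (2 * D) : ℕ) : ℤ) := by ring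
    rw [h2, ENNReal.zpow_neg, ENNReal.zpow_neg, zpow_natCast, zpow_natCast,
      ← ENNReal.ofReal_pow (by positivity), ← ENNReal.ofReal_pow (by positivity),
      ← ENNReal.ofReal_inv_of_pos (by positivity), ← ENNReal.ofReal_inv_of_pos (by positivity),
      ← ENNReal.ofReal_mul (by positivity), ← ENNReal.ofReal_pow (by positivity)]
    refine ENNReal.ofReal_le_ofReal ?_
    set j : ℕ := t / (2 * D) with hj
    have h3 : 2 * D * j ≤ t := Nat.mul_div_le t (2 * D)
    have h4 : ((1 / (12 * (k : ℝ))) ^ j)⁻¹ ≤ sBase ^ t := by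
      rw [one_div, inv_pow, inv_inv]
      calc (12 * (k : ℝ)) ^ j ≤ (sBase ^ (2 * D)) ^ j := by
            gcongr
            rw [hk]
            push_cast
            exact hs
        _ = sBase ^ (2 * D * j) := by rw [← pow_mul]
        _ ≤ sBase ^ t := pow_le_pow_right₀ hs1.le h3
    calc ((1 / (12 * (k : ℝ))) ^ j)⁻¹ * ((sBase ^ 2) ^ t)⁻¹ ≤ sBase ^ t * ((sBase ^ 2) ^ t)⁻¹ := by
          gcongr
      _ = sBase⁻¹ ^ t := by
          rw [← pow_mul, inv_pow, two_mul, pow_add]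
          field_simp
  have hsum : ∑' t, law d (PMF.pure (12 * k))
      {ω | ∃ y, oneType (d / k) ω t y = some t ∧ ((t : ℤ) - (t / (2 * D) : ℕ)) ≤ y i0} ≠ ⊤ := by
    refine ne_top_of_le_ne_top ?_ (ENNReal.tsum_le_tsum hbound)
    rw [ENNReal.tsum_geometric, ENNReal.inv_ne_top]
    refine (tsub_pos_of_lt ?_).ne'
    rw [← ENNReal.ofReal_one]
    exact (ENNReal.ofReal_lt_ofReal_iff one_pos).2 (inv_lt_one_of_one_lt₀ hs1)
  filter_upwards [ae_eventually_notMem hsum] with ω hω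
  obtain ⟨t0, ht0⟩ := eventually_atTop.1 hω
  refine ⟨t0 + 1, fun n x hx => ?_⟩
  obtain ⟨t, ht⟩ := Option.ne_none_iff_exists'.1 hx
  obtain ⟨htn, hxt⟩ := oneType_bound (Pi.evalAddMonoidHom (fun _ => ℤ) i0) (eval_vec_le i0) n x t ht
  have hxt' : (x i0 : ℝ) ≤ t := by exact_mod_cast hxt
  have hDr : (1 : ℝ) ≤ D := by exact_mod_cast hD
  have hc : 0 ≤ 1 - 1 / (2 * (D : ℝ)) := by
    rw [sub_nonneg, div_le_one (by positivity)]
    linarith
  have htn' : (t : ℝ) ≤ n := by exact_mod_cast htn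
  by_cases htt : t0 ≤ t
  · have h1 := ht0 t htt
    simp only [not_exists, not_and, not_le] at h1
    have h2 := h1 x (oneType_time ht)
    have h3 : (x i0 : ℝ) < t - (t / (2 * D) : ℕ) := by exact_mod_cast h2
    have h4 : (t : ℝ) / (2 * D) < (t / (2 * D) : ℕ) + 1 := by
      have := Nat.lt_floor_add_one ((t : ℝ) / ((2 * D : ℕ) : ℝ))
      rw [Nat.floor_div_eq_div] at this
      push_cast at this ⊢
      exact this
    have h5 : (t : ℝ) - t / (2 * D) = (1 - 1 / (2 * D)) * t := by ring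
    have h6 : (1 - 1 / (2 * (D : ℝ))) * t ≤ (1 - 1 / (2 * D)) * n := by gcongr
    have h7 : (0 : ℝ) ≤ t0 := Nat.cast_nonneg _
    linarith
  · have h1 : (t : ℝ) ≤ t0 := by
      exact_mod_cast (not_le.1 htt).le
    have h2 : 0 ≤ (1 - 1 / (2 * (D : ℝ))) * n := by positivity
    linarith

/-- Lower bound for the speed in direction `i0`. -/
theorem speed_lower [NeZero d] {i0 i1 : Fin d} (h01 : i0 ≠ i1) {D : ℕ} (hD : 1 ≤ D)
    (hq : 6 * (1 - 1 / (2 * (d : ℝ))) ^ (12 * D ^ 2) ≤ 6⁻¹ ^ (4 * D)) :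
    0 < law d (PMF.pure (12 * D ^ 2)) {ω | ∃ᶠ n : ℕ in atTop, ∃ x ∈ discovered 1 ω n,
      (1 - 1 / (4 * D)) * (n : ℝ) ≤ x i0} := by
  have := isProb_law (d := d) (PMF.pure (12 * D ^ 2))
  have hd : (1 : ℝ) ≤ d := by exact_mod_cast Nat.one_le_iff_ne_zero.2 (NeZero.ne d)
  have hθ0 : 0 ≤ 1 - 1 / (2 * (d : ℝ)) := by
    rw [sub_nonneg, div_le_one (by positivity)]
    linarith
  set q : ℝ≥0∞ := 2 * ENNReal.ofReal (1 - 1 / (2 * d)) ^ (12 * D ^ 2) with hqdef
  have h3q : 3 * q ≤ ENNReal.ofReal (6⁻¹ ^ (4 * D)) := by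
    refine le_trans (le_of_eq ?_) (ENNReal.ofReal_le_ofReal hq)
    rw [hqdef, ENNReal.ofReal_mul (by norm_num), ENNReal.ofReal_pow hθ0, ← mul_assoc]
    congr 1
    rw [show (6 : ℝ) = 3 * 2 by norm_num, ENNReal.ofReal_mul (by norm_num)]
    simp
  have h64 : (6⁻¹ : ℝ) ^ (4 * D) ≤ 6⁻¹ ^ 4 :=
    pow_le_pow_of_le_one (by norm_num) (by norm_num) (by omega)
  have h27 : 27 * q ≤ 1 := by
    calc 27 * q = 9 * (3 * q) := by ring
      _ ≤ 9 * ENNReal.ofReal (6⁻¹ ^ 4) := by
          gcongr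
          exact h3q.trans (ENNReal.ofReal_le_ofReal h64)
      _ = ENNReal.ofReal (9 * 6⁻¹ ^ 4) := by
          rw [ENNReal.ofReal_mul (by norm_num)]
          simp
      _ ≤ 1 := by
          rw [← ENNReal.ofReal_one]
          exact ENNReal.ofReal_le_ofReal (by norm_num)
  set R : ℕ × ℕ → Set (Config d) := Reach (closedAt 1 0 (i0, true) (i1, true)) with hR
  have hRb : ∀ n c, law d (PMF.pure (12 * D ^ 2)) (R (n, c)) ≤ 3 ^ n * (3 * q) ^ c := by
    intro n c
    exact quad_reach_bound (12 * D ^ 2) zero_le_one le_rfl 0 (by simpa using h01) h27 n c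
  set A : ℕ → Set (Config d) := fun n => R (0, 1) ∪ R (n, n / (4 * D) + 1) with hA
  have hAb : ∀ n, 2 ≤ n → law d (PMF.pure (12 * D ^ 2)) (A n) ≤ ENNReal.ofReal (1 / 2) := by
    intro n hn
    have h1 : law d (PMF.pure (12 * D ^ 2)) (R (0, 1)) ≤ ENNReal.ofReal (1 / 4) := by
      refine (hRb 0 1).trans ?_
      rw [pow_zero, one_mul, pow_one]
      exact h3q.trans (ENNReal.ofReal_le_ofReal (h64.trans (by norm_num)))
    have h2 : law d (PMF.pure (12 * D ^ 2)) (R (n, n / (4 * D) + 1)) ≤ ENNReal.ofReal (1 / 4) := by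
      refine (hRb n _).trans ?_
      calc (3 : ℝ≥0∞) ^ n * (3 * q) ^ (n / (4 * D) + 1)
          ≤ ENNReal.ofReal 3 ^ n * ENNReal.ofReal (6⁻¹ ^ (4 * D)) ^ (n / (4 * D) + 1) := by
            gcongr
            simp
        _ = ENNReal.ofReal (3 ^ n * (6⁻¹ ^ (4 * D)) ^ (n / (4 * D) + 1)) := by
            rw [← ENNReal.ofReal_pow (by norm_num), ← ENNReal.ofReal_pow (by positivity),
              ← ENNReal.ofReal_mul (by positivity)]
        _ ≤ ENNReal.ofReal (1 / 4) := by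
            refine ENNReal.ofReal_le_ofReal ?_
            have h3 : n ≤ 4 * D * (n / (4 * D) + 1) := by
              have := Nat.lt_mul_div_succ n (show 0 < 4 * D by omega)
              exact this.le
            calc (3 : ℝ) ^ n * (6⁻¹ ^ (4 * D)) ^ (n / (4 * D) + 1)
                = 3 ^ n * 6⁻¹ ^ (4 * D * (n / (4 * D) + 1)) := by rw [← pow_mul]
              _ ≤ 3 ^ n * 6⁻¹ ^ n := by
                  gcongr 3 ^ n * ?_
                  exact pow_le_pow_of_le_one (by norm_num) (by norm_num) h3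
              _ = 2⁻¹ ^ n := by
                  rw [← mul_pow]
                  norm_num
              _ ≤ 2⁻¹ ^ 2 := pow_le_pow_of_le_one (by norm_num) (by norm_num) hn
              _ ≤ 1 / 4 := by norm_num
    calc law d (PMF.pure (12 * D ^ 2)) (A n) ≤ _ := measure_union_le _ _
      _ ≤ ENNReal.ofReal (1 / 4) + ENNReal.ofReal (1 / 4) := add_le_add h1 h2
      _ = ENNReal.ofReal (1 / 2) := by
          rw [← ENNReal.ofReal_add (by norm_num) (by norm_num)]
          norm_num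
  -- the event that `A n` occurs for all large `n`
  have hev : law d (PMF.pure (12 * D ^ 2)) {ω | ∀ᶠ n in atTop, ω ∈ A n} ≤
      ENNReal.ofReal (1 / 2) := by
    have h1 : {ω | ∀ᶠ n in atTop, ω ∈ A n} = ⋃ N, {ω | ∀ n, N ≤ n → ω ∈ A n} := by
      ext ω
      simp [eventually_atTop]
    have hmono : Monotone fun N : ℕ => {ω : Config d | ∀ n, N ≤ n → ω ∈ A n} := by
      intro N M hNM ω hω n hn
      exact hω n (hNM.trans hn)
    rw [h1, hmono.measure_iUnion]
    refine iSup_le fun N => ?_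
    have h2 : {ω : Config d | ∀ n, N ≤ n → ω ∈ A n} ⊆ A (max N 2) := fun ω hω =>
      hω (max N 2) (le_max_left _ _)
    exact (measure_mono h2).trans (hAb _ (le_max_right _ _))
  have hsub : (Set.univ : Set (Config d)) ⊆ {ω | ∀ᶠ n in atTop, ω ∈ A n} ∪
      {ω | ∃ᶠ n : ℕ in atTop, ∃ x ∈ discovered 1 ω n, (1 - 1 / (4 * D)) * (n : ℝ) ≤ x i0} := by
    intro ω _
    by_cases hω : ∀ᶠ n in atTop, ω ∈ A n
    · exact Or.inl hω
    · refine Or.inr ?_
      rw [not_eventually] at hω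
      refine hω.mono fun n hn => ?_
      simp only [hA, mem_union, not_or] at hn
      obtain ⟨hn0, hn1⟩ := hn
      obtain ⟨x, hx0, hx, hopen, hslope⟩ := exists_openPath hn0 (fPlus i0 i1)
        (by rw [fPlus_apply]; simp [vec, h01.symm]) (by rw [fPlus_apply]; simp [vec, h01])
      obtain ⟨b, hb, hxn⟩ := hslope n _ hn1
      have hfull := oneType_fullSpeed (p := 1) (ω := ω) (fPlus i0 i1) (fPlus_vec_le h01) hx0
        (fun k => by rw [hx k]; simp) hopen n
      refine ⟨x n, ?_, ?_⟩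
      · show oneType 1 ω n (x n) ≠ none
        rw [hfull]
        simp
      · have h1 : x n i0 = n - b := by
          rw [hxn]
          simp [vec, h01]
        rw [h1]
        push_cast
        have h2 : (b : ℝ) ≤ (n / (4 * D) : ℕ) := by exact_mod_cast hb
        have h3 : ((n / (4 * D) : ℕ) : ℝ) ≤ (n : ℝ) / (4 * D : ℕ) := Nat.cast_div_le
        push_cast at h3
        have h4 : (1 - 1 / (4 * (D : ℝ))) * n = n - n / (4 * D) := by ring
        rw [h4]
        linarith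
  by_contra hcon
  have hzero := le_antisymm (not_lt.1 hcon) zero_le
  have h1 : (1 : ℝ≥0∞) ≤ ENNReal.ofReal (1 / 2) := by
    calc (1 : ℝ≥0∞) = law d (PMF.pure (12 * D ^ 2)) Set.univ := measure_univ.symm
      _ ≤ _ := measure_mono hsub
      _ ≤ _ := measure_union_le _ _
      _ ≤ ENNReal.ofReal (1 / 2) + 0 := add_le_add hev hzero.le
      _ = ENNReal.ofReal (1 / 2) := add_zero _
  rw [← ENNReal.ofReal_one, ENNReal.ofReal_le_ofReal_iff (by norm_num)] at h1
  norm_num at h1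

end Pool.Agent.Helper96.Frog
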